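import Pool.Agent.Helper287.HP.Semi

set_option autoImplicit false

/-! The Cauchy bound for powers of the difference operator. -/

namespace Pool.Agent.Helper287.HP

open Filter Topology

lemma iteratedDeriv_diff_le {h : ℂ → ℂ} (hd : Differentiable ℂ h) (j : ℕ) (B : ℝ)
    (hB : ∀ t : ℝ, 0 ≤ t → t ≤ ((j + 1 : ℕ) : ℝ) → ‖iteratedDeriv (j + 1) h t‖ ≤ B)
    (t : ℝ) (ht0 : 0 ≤ t) (htj : t ≤ j) :
    ‖iteratedDeriv j (fun z : ℂ => h (z + 1) - h z) t‖ ≤ B := by
  have e2 : iteratedDeriv j (fun z : ℂ => h (z + 1) - h z) (t : ℂ) =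
      iteratedDeriv j h ((t : ℂ) + 1) - iteratedDeriv j h (t : ℂ) := by
    have h1 : ContDiffAt ℂ j (fun z : ℂ => h (z + 1)) t := by
      apply ContDiff.contDiffAt
      exact (hd.comp (by fun_prop : Differentiable ℂ fun z : ℂ => z + 1)).contDiff
    have h2 : ContDiffAt ℂ j h t := hd.contDiff.contDiffAt
    rw [iteratedDeriv_fun_sub h1 h2, iteratedDeriv_comp_add_const]
  rw [e2]
  have h3 : Differentiable ℂ (iteratedDeriv j h) :=
    (hd.contDiff (n := ⊤)).differentiable_iteratedDeriv j (by exact_mod_cast WithTop.coe_lt_top _)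
  have hseg : Convex ℝ (segment ℝ (t : ℂ) ((t : ℂ) + 1)) := convex_segment _ _
  have h4 := hseg.norm_image_sub_le_of_norm_deriv_le (𝕜 := ℂ) (f := iteratedDeriv j h) (C := B)
    (x := (t : ℂ)) (y := (t : ℂ) + 1)
    (fun x _ => h3 x) ?_ (left_mem_segment _ _ _) (right_mem_segment _ _ _)
  · simpa using h4
  · rintro x ⟨a, b, ha, hb, hab, rfl⟩
    rw [← iteratedDeriv_succ]
    have : (a • (t : ℂ) + b • ((t : ℂ) + 1)) = ((t + b : ℝ) : ℂ) := by
      rw [Complex.real_smul, Complex.real_smul]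
      have : (a : ℂ) = 1 - b := by
        rw [← Complex.ofReal_one, ← Complex.ofReal_sub]; congr 1; linarith
      rw [this]
      push_cast
      ring
    rw [this]
    apply hB
    · linarith
    · push_cast
      linarith

lemma pair_diff (h : ℂ → ℂ) (m : ℤ) :
    pair (fun n : ℤ => h (((m + n : ℤ)) : ℂ)) (AddMonoidAlgebra.single 1 1 - 1 : GA) =
      h ((m : ℂ) + 1) - h m := by
  have e1 : (AddMonoidAlgebra.single 1 1 - 1 : GA) =
      AddMonoidAlgebra.single 1 1 + (-1 : ℂ) • AddMonoidAlgebra.single 0 1 := by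
    rw [AddMonoidAlgebra.one_def, neg_one_smul, sub_eq_add_neg]
  rw [e1, pair_add, pair_smul, pair_single, pair_single]
  push_cast
  simp only [add_zero]
  ring

/-- Bound for iterated differences by derivatives. -/
lemma pair_pow_le (j : ℕ) : ∀ (h : ℂ → ℂ) (B : ℝ), Differentiable ℂ h →
    (∀ t : ℝ, 0 ≤ t → t ≤ j → ‖iteratedDeriv j h t‖ ≤ B) →
    ‖pair (fun n : ℤ => h (n : ℂ)) ((AddMonoidAlgebra.single 1 1 - 1 : GA) ^ j)‖ ≤ B := by
  induction j with
  | zero =>
    intro h B hd hB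
    have := hB 0 le_rfl (by simp)
    rw [pow_zero, AddMonoidAlgebra.one_def, pair_single]
    simpa using this
  | succ j ih =>
    intro h B hd hB
    have hd' : Differentiable ℂ (fun z : ℂ => h (z + 1) - h z) :=
      (hd.comp (by fun_prop : Differentiable ℂ fun z : ℂ => z + 1)).sub hd
    have key := ih (fun z => h (z + 1) - h z) B hd' (iteratedDeriv_diff_le hd j B hB)
    have e : (fun m : ℤ => pair (fun n : ℤ => h (((m + n : ℤ)) : ℂ))
        (AddMonoidAlgebra.single 1 1 - 1 : GA)) = fun m : ℤ => h ((m : ℂ) + 1) - h m :=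
      funext fun m => pair_diff h m
    rw [pow_succ, pair_mul, e]
    exact key

end Pool.Agent.Helper287.HP
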