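import Pool.Agent.Helper287.HP.Semi

set_option autoImplicit false

/-! Completion of the group algebra for an algebra seminorm. -/

namespace Pool.Agent.Helper287.HP

open Filter Topology

/-- An algebra seminorm on the group algebra. -/
structure AlgSemi where
  q : GA → ℝ
  zero : q 0 = 0
  add : ∀ P Q, q (P + Q) ≤ q P + q Q
  smul : ∀ (c : ℂ) P, q (c • P) ≤ ‖c‖ * q P
  mul : ∀ P Q, q (P * Q) ≤ q P * q Q

/-- Type synonym. -/
def AlgSemi.Ty (_ : AlgSemi) : Type := GA

namespace AlgSemi

variable (s : AlgSemi)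

lemma neg (P : GA) : s.q (-P) = s.q P := by
  have h : ∀ P, s.q (-P) ≤ s.q P := fun P => by
    have := s.smul (-1) P
    simpa using this
  exact le_antisymm (h P) (by simpa using h (-P))

noncomputable instance : CommRing s.Ty := inferInstanceAs (CommRing GA)

noncomputable instance : Algebra ℂ s.Ty := inferInstanceAs (Algebra ℂ GA)

/-- the group seminorm -/
noncomputable def toGS : AddGroupSeminorm s.Ty where
  toFun := s.q
  map_zero' := s.zero
  add_le' := s.add
  neg' := s.neg

noncomputable instance : SeminormedAddCommGroup s.Ty :=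
  AddGroupSeminorm.toSeminormedAddCommGroup s.toGS

noncomputable instance : SeminormedCommRing s.Ty :=
  { (inferInstance : SeminormedAddCommGroup s.Ty), (inferInstance : CommRing s.Ty) with
    norm_mul_le := s.mul }

lemma norm_def (P : s.Ty) : ‖P‖ = s.q P := rfl

noncomputable instance : NormedAlgebra ℂ s.Ty :=
  { (inferInstance : Algebra ℂ s.Ty) with
    norm_smul_le := fun c P => s.smul c P }

/-- The identity map. -/
noncomputable def toTy : GA →ₐ[ℂ] s.Ty := AlgHom.id ℂ GA

/-- The identity map, backwards. -/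
noncomputable def ofTy : s.Ty →ₐ[ℂ] GA := AlgHom.id ℂ GA

end AlgSemi

theorem exists_completion (s : AlgSemi) : ∃ (A : Type) (_ : NormedCommRing A)
    (_ : NormedAlgebra ℂ A) (_ : CompleteSpace A) (ι : GA →ₐ[ℂ] A),
    DenseRange ι ∧ (∀ P, ‖ι P‖ = s.q P) ∧
    ∀ (C : Type) [NormedCommRing C] [NormedAlgebra ℂ C] [CompleteSpace C] (T : GA →ₐ[ℂ] C),
      (∀ P, ‖T P‖ ≤ s.q P) → ∃ φ : A →ₐ[ℂ] C, Continuous φ ∧ (∀ P, φ (ι P) = T P) ∧
        ∀ x, ‖φ x‖ ≤ ‖x‖ := by
  classical
  let A := UniformSpace.Completion s.Ty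
  let ι0 : s.Ty →ₐ[ℂ] A :=
    { (UniformSpace.Completion.coeRingHom : s.Ty →+* A) with
      commutes' := fun c => rfl }
  refine ⟨A, inferInstance, inferInstance, inferInstance, ι0.comp s.toTy, ?_, ?_, ?_⟩
  · have h : DenseRange (fun x : s.Ty => (x : A)) := UniformSpace.Completion.denseRange_coe
    exact h
  · intro P
    exact UniformSpace.Completion.norm_coe (s.toTy P)
  · intro C _ _ _ T hT
    have hcont : Continuous (T.comp s.ofTy) := by
      have : ∀ x : s.Ty, ‖(T.comp s.ofTy) x‖ ≤ 1 * ‖x‖ := fun x => by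
        rw [one_mul]; exact hT x
      exact AddMonoidHomClass.continuous_of_bound (T.comp s.ofTy) 1 this
    let φ0 : A →+* C := UniformSpace.Completion.extensionHom (T.comp s.ofTy).toRingHom hcont
    have hφ0 : ∀ x : s.Ty, φ0 (x : A) = (T.comp s.ofTy) x := fun x =>
      UniformSpace.Completion.extensionHom_coe (T.comp s.ofTy).toRingHom hcont x
    have hφc : Continuous φ0 := UniformSpace.Completion.continuous_extension
    let φ : A →ₐ[ℂ] C :=
      { φ0 with
        commutes' := fun c => by
          have h1 : algebraMap ℂ A c = ((algebraMap ℂ s.Ty c : s.Ty) : A) := rfl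
          change φ0 (algebraMap ℂ A c) = _
          rw [h1, hφ0]
          exact (T.comp s.ofTy).commutes c }
    refine ⟨φ, hφc, fun P => hφ0 (s.toTy P), ?_⟩
    intro x
    induction x using UniformSpace.Completion.induction_on with
    | hp => exact isClosed_le (hφc.norm) continuous_norm
    | ih a =>
      have h1 : φ (a : A) = (T.comp s.ofTy) a := hφ0 a
      rw [h1, UniformSpace.Completion.norm_coe]
      exact hT a

end Pool.Agent.Helper287.HP
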