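import Pool.Agent.Helper287.HP.Step

set_option autoImplicit false

/-! The step lemma and the sequence of stages. -/

namespace Pool.Agent.Helper287.HP

open Filter Topology

lemma W_zero (s : Stage) : s.W 0 = 1 := by
  apply le_antisymm _ (s.one_le 0)
  simpa using s.le_exp 0

theorem exists_step (s : Stage) (v : ℝ) (hv : 0 < v) (hvf : v < ‖s.f 1‖) (η : ℝ) (hη : 0 < η) :
    ∃ s' : Stage, (∀ z, s'.W z ≤ s.W z) ∧ v < ‖s'.f 1‖ ∧
      ∃ N : ℕ, 1 ≤ N ∧ s'.W N * s'.W (-N) ≤ η * N := by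
  classical
  set d := s.d with hd
  set D := d + 2 * (3 * d * d) with hD
  have hf1 : 0 < ‖s.f 1‖ := hv.trans hvf
  set θ : ℝ := (1 + v / ‖s.f 1‖) / 2 with hθ
  have hvf' : v / ‖s.f 1‖ < 1 := by rw [div_lt_one hf1]; exact hvf
  have hvpos : 0 < v / ‖s.f 1‖ := by positivity
  have hθ1 : θ < 1 := by rw [hθ]; linarith
  have hθ0 : 0 < θ := by rw [hθ]; linarith
  have hθv : v < θ * ‖s.f 1‖ := by
    rw [← div_lt_iff₀ hf1, hθ]
    linarith
  obtain ⟨A1, hA1, hA1W⟩ := s.growth (D + 1)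
  obtain ⟨A2, hA2, hA2W⟩ := s.growth (3 * d + 2 * (3 * d * d))
  obtain ⟨A3, hA3, hA3W⟩ := s.growth D
  obtain ⟨B, hB, hBn⟩ := exists_poly_le_two_pow D
  have natT : Tendsto (fun M : ℕ => (M : ℝ)) atTop atTop := tendsto_natCast_atTop_atTop
  have c1 : ∀ᶠ M : ℕ in atTop, 2 ≤ M := eventually_ge_atTop 2
  have c2 : ∀ᶠ M : ℕ in atTop, θ * (1 + ((M : ℝ)⁻¹) ^ 2) ^ (3 * d * d) ≤ 1 := by
    have h1 : Tendsto (fun M : ℕ => θ * (1 + ((M : ℝ)⁻¹) ^ 2) ^ (3 * d * d)) atTop
        (𝓝 (θ * (1 + 0 ^ 2) ^ (3 * d * d))) := by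
      apply Tendsto.const_mul
      apply Tendsto.pow
      apply Tendsto.const_add
      exact (tendsto_inv_atTop_nhds_zero_nat (𝕜 := ℝ)).pow 2
    simp only [ne_eq, OfNat.ofNat_ne_zero, not_false_eq_true, zero_pow, add_zero, one_pow,
      mul_one] at h1
    exact (h1.eventually (eventually_lt_nhds hθ1)).mono fun _ h => h.le
  have c3 : ∀ᶠ M : ℕ in atTop, v < θ * ‖s.f 1 * newH d M 1‖ := by
    have h1 : Tendsto (fun M : ℕ => θ * ‖s.f 1 * newH d M 1‖) atTop
        (𝓝 (θ * ‖s.f 1 * 1‖)) := by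
      apply Tendsto.const_mul
      apply Tendsto.norm
      apply Tendsto.const_mul
      exact newH_one_tendsto d
    rw [mul_one] at h1
    exact h1.eventually (eventually_gt_nhds hθv)
  have c4 : ∀ᶠ M : ℕ in atTop, A1 ≤ (M : ℝ) := natT.eventually (eventually_ge_atTop _)
  have c5 : ∀ᶠ M : ℕ in atTop, 2 ^ d * (1 + 3 * (d : ℝ)) ^ D * A2 ≤ (M : ℝ) :=
    natT.eventually (eventually_ge_atTop _)
  have c6 : ∀ᶠ M : ℕ in atTop, 2 * (A3 * (B * 2 ^ (3 * d))) ≤ (M : ℝ) :=
    natT.eventually (eventually_ge_atTop _)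
  have c7 : ∀ᶠ M : ℕ in atTop, η⁻¹ ≤ (M : ℝ) := natT.eventually (eventually_ge_atTop _)
  obtain ⟨M, ⟨⟨⟨⟨⟨hM2, h2⟩, h3⟩, h4⟩, h5⟩, h6⟩, h7⟩ :=
    (((((((c1.and c2).and c3).and c4).and c5).and c6).and c7)).exists
  have hM1 : 1 ≤ M := by omega
  have hMR : (2 : ℝ) ≤ M := by exact_mod_cast hM2
  have hM0 : (0 : ℝ) < M := by linarith
  have hM1R : (1 : ℝ) ≤ M := by linarith
  -- the main bound
  have main : ∀ (z : ℂ) (a : ℤ), ‖(θ : ℂ) * (s.f z * newH d M z)‖ ≤
      (M : ℝ) ^ a.natAbs * s.W (z - a * (M : ℂ) ^ 3) := by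
    intro z a
    rw [norm_mul, Complex.norm_real, Real.norm_of_nonneg hθ0.le]
    have hW := s.one_le (z - a * (M : ℂ) ^ 3)
    by_cases ha : a = 0
    · subst ha
      simp only [Int.natAbs_zero, pow_zero, Int.cast_zero, zero_mul, sub_zero, one_mul]
      by_cases hzM : ‖z‖ ≤ M
      · rw [norm_mul]
        have e1 : ‖newH d M z‖ ≤ (1 + ((M : ℝ)⁻¹) ^ 2) ^ (3 * d * d) := by
          refine (newH_le d M hM1 z).trans ?_
          apply pow_le_pow_left₀ (by positivity)
          have : ‖z‖ / (M : ℝ) ^ 3 ≤ (M : ℝ)⁻¹ := by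
            rw [div_le_iff₀ (by positivity)]
            have : (M : ℝ)⁻¹ * (M : ℝ) ^ 3 = (M : ℝ) ^ 2 := by field_simp
            rw [this]
            nlinarith
          have h0 : 0 ≤ ‖z‖ / (M : ℝ) ^ 3 := by positivity
          have := pow_le_pow_left₀ h0 this 2
          linarith
        calc θ * (‖s.f z‖ * ‖newH d M z‖) = ‖s.f z‖ * (θ * ‖newH d M z‖) := by ring
          _ ≤ ‖s.f z‖ * 1 := by
            apply mul_le_mul_of_nonneg_left _ (norm_nonneg _)
            exact (mul_le_mul_of_nonneg_left e1 hθ0.le).trans h2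
          _ ≤ _ := by rw [mul_one]; exact s.f_le z
      · push Not at hzM
        have e1 := prod_poly s M hM1 z
        rw [← hd, ← hD] at e1
        have e2 := hA1W z
        rw [pow_succ] at e2
        have e3 : (1 + ‖z‖) ^ D * A1 ≤ A1 * s.W z := by
          refine le_trans ?_ e2
          apply mul_le_mul_of_nonneg_left _ (by positivity)
          linarith
        have e4 : (1 + ‖z‖) ^ D ≤ s.W z := by
          rw [mul_comm] at e3
          exact le_of_mul_le_mul_left e3 hA1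
        calc θ * ‖s.f z * newH d M z‖ ≤ 1 * ‖s.f z * newH d M z‖ :=
              mul_le_mul_of_nonneg_right hθ1.le (norm_nonneg _)
          _ ≤ _ := by rw [one_mul]; exact e1.trans e4
    · have hpos : 1 ≤ a.natAbs := Int.natAbs_pos.mpr ha
      have hred : ‖s.f z * newH d M z‖ ≤ (M : ℝ) ^ a.natAbs * s.W (z - a * (M : ℂ) ^ 3) := by
        by_cases had : a.natAbs ≤ 3 * d
        · have e1 := prod_near s M hM1 a ha had z
          rw [← hd, ← hD] at e1
          have e2 := hA2W (z - a * (M : ℂ) ^ 3)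
          have hA : (a.natAbs : ℝ) ≤ 3 * (d : ℝ) := by exact_mod_cast had
          calc _ ≤ _ := e1
            _ ≤ (2 ^ d * (1 + 3 * (d : ℝ)) ^ D) * (A2 * s.W (z - a * (M : ℂ) ^ 3)) := by
                apply mul_le_mul _ e2 (by positivity) (by positivity)
                apply mul_le_mul_of_nonneg_left _ (by positivity)
                apply pow_le_pow_left₀ (by positivity)
                linarith
            _ = (2 ^ d * (1 + 3 * (d : ℝ)) ^ D * A2) * s.W (z - a * (M : ℂ) ^ 3) := by ring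
            _ ≤ (M : ℝ) * s.W (z - a * (M : ℂ) ^ 3) :=
                mul_le_mul_of_nonneg_right h5 (by linarith)
            _ ≤ _ := by
                apply mul_le_mul_of_nonneg_right _ (by linarith)
                calc (M : ℝ) = (M : ℝ) ^ 1 := (pow_one _).symm
                  _ ≤ _ := pow_le_pow_right₀ hM1R hpos
        · push Not at had
          have e1 := prod_far s M hM1 a z
          rw [← hd, ← hD] at e1
          have e2 := hA3W (z - a * (M : ℂ) ^ 3)
          have e3 := hBn a.natAbs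
          obtain ⟨k, hk⟩ : ∃ k, a.natAbs = 3 * d + (k + 1) := ⟨a.natAbs - 3 * d - 1, by omega⟩
          have e4 : A3 * (B * 2 ^ a.natAbs) ≤ (M : ℝ) ^ (k + 1) := by
            rw [hk, pow_add 2 (3 * d)]
            calc A3 * (B * (2 ^ (3 * d) * 2 ^ (k + 1)))
                = (2 * (A3 * (B * 2 ^ (3 * d)))) * 2 ^ k := by ring
              _ ≤ (M : ℝ) * (M : ℝ) ^ k := by
                  apply mul_le_mul h6 _ (by positivity) (by positivity)
                  exact pow_le_pow_left₀ (by norm_num) hMR k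
              _ = _ := by ring
          calc _ ≤ _ := e1
            _ ≤ (B * 2 ^ a.natAbs) * (A3 * s.W (z - a * (M : ℂ) ^ 3)) * (M : ℝ) ^ (3 * d) := by
                apply mul_le_mul_of_nonneg_right _ (by positivity)
                exact mul_le_mul e3 e2 (by positivity) (by positivity)
            _ = (A3 * (B * 2 ^ a.natAbs)) * ((M : ℝ) ^ (3 * d) * s.W (z - a * (M : ℂ) ^ 3)) := by
                ring
            _ ≤ (M : ℝ) ^ (k + 1) * ((M : ℝ) ^ (3 * d) * s.W (z - a * (M : ℂ) ^ 3)) := by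
                apply mul_le_mul_of_nonneg_right e4
                positivity
            _ = _ := by rw [hk]; ring
      calc θ * ‖s.f z * newH d M z‖ ≤ 1 * ‖s.f z * newH d M z‖ :=
            mul_le_mul_of_nonneg_right hθ1.le (norm_nonneg _)
        _ ≤ _ := by rw [one_mul]; exact hred
  refine ⟨⟨newW s.W M, fun z => (θ : ℂ) * (s.f z * newH d M z), D,
    one_le_newW s.one_le hM1, newW_sub s.one_le s.sub hM1,
    fun z => (newW_le_self s.one_le hM1 z).trans (s.le_exp z),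
    newW_growth s.one_le s.growth hM2, ?_, ?_, ?_, ?_⟩, ?_, ?_, ?_⟩
  · exact (s.diff.mul (newH_diff d M)).const_mul _
  · intro z
    rw [norm_mul, Complex.norm_real, Real.norm_of_nonneg hθ0.le]
    calc θ * ‖s.f z * newH d M z‖ ≤ 1 * ‖s.f z * newH d M z‖ :=
            mul_le_mul_of_nonneg_right hθ1.le (norm_nonneg _)
        _ ≤ _ := by rw [one_mul]; exact prod_poly s M hM1 z
  · intro z
    exact le_newW (main z)
  · simp [s.f_zero]
  · exact fun z => newW_le_self s.one_le hM1 z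
  · change v < ‖(θ : ℂ) * (s.f 1 * newH d M 1)‖
    rw [norm_mul, Complex.norm_real, Real.norm_of_nonneg hθ0.le]
    exact h3
  · refine ⟨M ^ 3, Nat.one_le_pow _ _ (by omega), ?_⟩
    change newW s.W M ((M ^ 3 : ℕ) : ℂ) * newW s.W M (-((M ^ 3 : ℕ) : ℂ)) ≤ _
    have e1 : newW s.W M ((M ^ 3 : ℕ) : ℂ) ≤ M := by
      have := newW_le s.one_le hM1 ((M ^ 3 : ℕ) : ℂ) 1
      simpa [W_zero s] using this
    have e2 : newW s.W M (-((M ^ 3 : ℕ) : ℂ)) ≤ M := by
      have := newW_le s.one_le hM1 (-((M ^ 3 : ℕ) : ℂ)) (-1)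
      simpa [W_zero s] using this
    have e3 : (1 : ℝ) ≤ η * M := by
      rw [inv_le_iff_one_le_mul₀ hη] at h7
      linarith
    have e4 := one_le_newW s.one_le hM1 (-((M ^ 3 : ℕ) : ℂ))
    calc _ ≤ (M : ℝ) * M := mul_le_mul e1 e2 (by linarith) hM0.le
      _ ≤ (η * M) * (M * M) := by
        have : 0 ≤ (M : ℝ) * M := by positivity
        nlinarith
      _ = _ := by push_cast; ring

/-- the first stage -/
noncomputable def stage0 : Stage where
  W z := Real.exp (Real.sqrt ‖z‖)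
  f z := z / 2
  d := 1
  one_le z := Real.one_le_exp (Real.sqrt_nonneg _)
  sub z u := by
    rw [← Real.exp_add]
    apply Real.exp_le_exp.mpr
    calc Real.sqrt ‖z + u‖ ≤ Real.sqrt (‖z‖ + ‖u‖) := Real.sqrt_le_sqrt (norm_add_le _ _)
      _ ≤ _ := by
        apply Real.sqrt_le_iff.mpr
        refine ⟨by positivity, ?_⟩
        have h1 := Real.sq_sqrt (norm_nonneg z)
        have h2 := Real.sq_sqrt (norm_nonneg u)
        have h3 := mul_nonneg (Real.sqrt_nonneg ‖z‖) (Real.sqrt_nonneg ‖u‖)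
        nlinarith
  le_exp z := le_rfl
  growth D := by
    refine ⟨(2 * D).factorial * 2 ^ D + 2 ^ D, by positivity, fun z => ?_⟩
    have h1 : Real.sqrt ‖z‖ ^ (2 * D) / (2 * D).factorial ≤ Real.exp (Real.sqrt ‖z‖) :=
      Real.pow_div_factorial_le_exp _ (Real.sqrt_nonneg _) _
    rw [pow_mul, Real.sq_sqrt (norm_nonneg _), div_le_iff₀ (by positivity)] at h1
    have h2 : (1 + ‖z‖) ^ D ≤ 2 ^ D * (‖z‖ ^ D) + 2 ^ D := by
      by_cases h : ‖z‖ ≤ 1
      · calc (1 + ‖z‖) ^ D ≤ 2 ^ D := pow_le_pow_left₀ (by positivity) (by linarith) _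
          _ ≤ _ := by have : 0 ≤ 2 ^ D * (‖z‖ ^ D) := by positivity
                      linarith
      · push Not at h
        calc (1 + ‖z‖) ^ D ≤ (2 * ‖z‖) ^ D := pow_le_pow_left₀ (by positivity) (by linarith) _
          _ = 2 ^ D * ‖z‖ ^ D := by rw [mul_pow]
          _ ≤ _ := by have : (0 : ℝ) ≤ 2 ^ D := by positivity
                      linarith
    have h3 : 1 ≤ Real.exp (Real.sqrt ‖z‖) := Real.one_le_exp (Real.sqrt_nonneg _)
    have h4 : (0 : ℝ) < 2 ^ D := by positivity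
    nlinarith
  diff := by fun_prop
  f_poly z := by
    rw [norm_div, pow_one]
    simp only [Complex.norm_ofNat]
    have := norm_nonneg z
    linarith
  f_le z := by
    rw [norm_div]
    simp only [Complex.norm_ofNat]
    have h1 : Real.sqrt ‖z‖ ^ 2 / (2).factorial ≤ Real.exp (Real.sqrt ‖z‖) :=
      Real.pow_div_factorial_le_exp _ (Real.sqrt_nonneg _) _
    rw [Real.sq_sqrt (norm_nonneg _)] at h1
    simpa using h1
  f_zero := by simp

/-- A decreasing sequence of stages. -/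
theorem exists_stages : ∃ S : ℕ → Stage, (∀ k z, (S (k + 1)).W z ≤ (S k).W z) ∧
    (∀ k, 1 / 4 < ‖(S k).f 1‖) ∧
    (∀ η : ℝ, 0 < η → ∃ k, ∃ N : ℕ, 1 ≤ N ∧ (S k).W N * (S k).W (-N) ≤ η * N) := by
  classical
  have h0 : 1 / 4 < ‖stage0.f 1‖ := by
    change 1 / 4 < ‖(1 : ℂ) / 2‖
    norm_num
  have step : ∀ (k : ℕ) (s : {s : Stage // 1 / 4 < ‖s.f 1‖}), ∃ s' : {s : Stage // 1 / 4 < ‖s.f 1‖},
      (∀ z, s'.1.W z ≤ s.1.W z) ∧
      ∃ N : ℕ, 1 ≤ N ∧ s'.1.W N * s'.1.W (-N) ≤ (1 / ((k : ℝ) + 1)) * N := by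
    intro k s
    obtain ⟨s', h1, h2, h3⟩ := exists_step s.1 (1 / 4) (by norm_num) s.2 (1 / ((k : ℝ) + 1))
      (by positivity)
    exact ⟨⟨s', h2⟩, h1, h3⟩
  choose g hg1 hg2 using step
  let S : ℕ → {s : Stage // 1 / 4 < ‖s.f 1‖} := fun n => Nat.rec ⟨stage0, h0⟩ (fun k s => g k s) n
  refine ⟨fun n => (S n).1, ?_, fun k => (S k).2, ?_⟩
  · intro k z
    exact hg1 k (S k) z
  · intro η hη
    obtain ⟨k, hk⟩ := exists_nat_one_div_lt hη
    obtain ⟨N, hN1, hN2⟩ := hg2 k (S k)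
    refine ⟨k + 1, N, hN1, ?_⟩
    refine le_trans hN2 ?_
    exact mul_le_mul_of_nonneg_right hk.le (Nat.cast_nonneg _)

end Pool.Agent.Helper287.HP
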