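import Pool.Agent.Helper287.HP.Wl

set_option autoImplicit false

/-! Characters of the group algebra and Fourier coefficients. -/

namespace Pool.Agent.Helper287.HP

open Filter Topology

/-- Evaluation of a Laurent polynomial at a nonzero complex number. -/
noncomputable def evalAt (ζ : ℂˣ) : GA →ₐ[ℂ] ℂ :=
  AddMonoidAlgebra.lift ℂ ℂ ℤ ((Units.coeHom ℂ).comp (zpowersHom ℂˣ ζ))

lemma evalAt_single (ζ : ℂˣ) (n : ℤ) (c : ℂ) :
    evalAt ζ (AddMonoidAlgebra.single n c) = c * (ζ : ℂ) ^ n := by
  unfold evalAt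
  rw [AddMonoidAlgebra.lift_single]
  simp

lemma evalAt_eq_pair (ζ : ℂˣ) (P : GA) : evalAt ζ P = pair (fun n => (ζ : ℂ) ^ n) P := by
  induction P using AddMonoidAlgebra.induction_linear with
  | zero => rw [map_zero, pair_zero]
  | add P Q h1 h2 => rw [map_add, pair_add, h1, h2]
  | single n c => rw [evalAt_single, pair_single]

lemma norm_evalAt_le {Ω : ℤ → ℝ} (h1 : ∀ n, 1 ≤ Ω n) (ζ : ℂˣ) (hζ : ‖(ζ : ℂ)‖ = 1) (P : GA) :
    ‖evalAt ζ P‖ ≤ wl1 Ω P := by
  rw [evalAt_eq_pair]
  apply norm_pair_le
  intro n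
  rw [norm_zpow, hζ, one_zpow]
  exact h1 n

/-- Fourier coefficients are bounded by the sup norm on the circle. -/
lemma norm_coeff_le (P : GA) (ε : ℝ) (h : ∀ ζ : ℂˣ, ‖(ζ : ℂ)‖ = 1 → ‖evalAt ζ P‖ ≤ ε) (n : ℤ) :
    ‖P.coeff n‖ ≤ ε := by
  classical
  -- the integrand
  let F : ℝ → ℂ := fun t => pair (fun m => Complex.exp (((m - n : ℤ) : ℂ) * Complex.I * t)) P
  have hF : ∀ t, ‖F t‖ ≤ ε := by
    intro t
    have hne : Complex.exp (Complex.I * t) ≠ 0 := Complex.exp_ne_zero _
    have h1 := h (Units.mk0 _ hne) (by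
      rw [Units.val_mk0, mul_comm, Complex.norm_exp_ofReal_mul_I])
    have h2 : F t = Complex.exp (((-n : ℤ) : ℂ) * Complex.I * t) *
        evalAt (Units.mk0 _ hne) P := by
      rw [evalAt_eq_pair, ← pair_mul_fun]
      change pair (fun m => Complex.exp (((m - n : ℤ) : ℂ) * Complex.I * t)) P = _
      congr 1
      funext m
      rw [Units.val_mk0, ← Complex.exp_int_mul, ← Complex.exp_add]
      congr 1
      push_cast
      ring
    rw [h2, norm_mul]
    have h3 : ‖Complex.exp (((-n : ℤ) : ℂ) * Complex.I * t)‖ = 1 := by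
      have : (((-n : ℤ) : ℂ) * Complex.I * t) = (((-n : ℤ) * t : ℝ) : ℂ) * Complex.I := by
        push_cast; ring
      rw [this, Complex.norm_exp_ofReal_mul_I]
    rw [h3, one_mul]
    exact h1
  have hint : ∫ t in (0 : ℝ)..(2 * Real.pi), F t = (2 * Real.pi : ℝ) * P.coeff n := by
    have e1 : ∀ t, F t = ∑ m ∈ P.coeff.support,
        P.coeff m * Complex.exp (((m - n : ℤ) : ℂ) * Complex.I * t) := fun t => pair_eq_sum _ _
    simp only [e1]
    rw [intervalIntegral.integral_finsetSum]
    · have e2 : ∀ m ∈ P.coeff.support, (∫ t in (0 : ℝ)..(2 * Real.pi),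
          P.coeff m * Complex.exp (((m - n : ℤ) : ℂ) * Complex.I * t)) =
          if m = n then (2 * Real.pi : ℝ) * P.coeff n else 0 := by
        intro m _
        rw [intervalIntegral.integral_const_mul]
        by_cases hmn : m = n
        · subst hmn
          simp
          ring
        · rw [if_neg hmn]
          have hc : ((m - n : ℤ) : ℂ) * Complex.I ≠ 0 := by
            apply mul_ne_zero _ Complex.I_ne_zero
            exact_mod_cast sub_ne_zero.mpr hmn
          rw [integral_exp_mul_complex hc]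
          have : Complex.exp (((m - n : ℤ) : ℂ) * Complex.I * ((2 * Real.pi : ℝ) : ℂ)) = 1 := by
            rw [Complex.exp_eq_one_iff]
            exact ⟨m - n, by push_cast; ring⟩
          rw [this]
          simp
      rw [Finset.sum_congr rfl e2, Finset.sum_ite_eq']
      by_cases hn : n ∈ P.coeff.support
      · rw [if_pos hn]
      · rw [if_neg hn]
        rw [Finsupp.notMem_support_iff] at hn
        rw [hn, mul_zero]
    · intro m _
      apply Continuous.intervalIntegrable
      fun_prop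
  have hle : ‖∫ t in (0 : ℝ)..(2 * Real.pi), F t‖ ≤ ε * |2 * Real.pi - 0| :=
    intervalIntegral.norm_integral_le_of_norm_le_const fun t _ => hF t
  rw [hint, norm_mul, Complex.norm_real, Real.norm_of_nonneg (by positivity), sub_zero,
    abs_of_nonneg (by positivity)] at hle
  have hpi : 0 < 2 * Real.pi := by positivity
  rw [mul_comm ε] at hle
  exact le_of_mul_le_mul_left hle hpi

end Pool.Agent.Helper287.HP
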