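import Pool.Agent.Helper287.HP.Fourier

set_option autoImplicit false

/-! Assembly. -/

namespace Pool.Agent.Helper287.HP

open Filter Topology

/-- `u n` -/
noncomputable def mono (n : ℤ) : GA := AddMonoidAlgebra.single n 1

lemma mono_mul (m n : ℤ) : mono m * mono n = mono (m + n) := by
  unfold mono
  rw [AddMonoidAlgebra.single_mul_single, mul_one]

lemma mono_zero : mono 0 = 1 := (AddMonoidAlgebra.one_def).symm

/-- algebra homomorphisms from the group algebra agreeing on the generator. -/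
lemma algHom_eq {C : Type} [CommRing C] [Algebra ℂ C] (T U : GA →ₐ[ℂ] C)
    (h : T (mono 1) = U (mono 1)) : T = U := by
  have hpos : ∀ n : ℕ, T (mono n) = U (mono n) := by
    intro n
    induction n with
    | zero => simp [mono_zero]
    | succ n ih =>
      have : mono ((n + 1 : ℕ) : ℤ) = mono n * mono 1 := by
        rw [mono_mul]; push_cast; rfl
      rw [this, map_mul, map_mul, ih, h]
  have hneg : ∀ n : ℕ, T (mono (-(n : ℤ))) = U (mono (-(n : ℤ))) := by
    intro n
    have h1 : T (mono (-(n : ℤ))) * T (mono n) = 1 := by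
      rw [← map_mul, mono_mul, neg_add_cancel, mono_zero, map_one]
    have h2 : U (mono (-(n : ℤ))) * U (mono n) = 1 := by
      rw [← map_mul, mono_mul, neg_add_cancel, mono_zero, map_one]
    calc T (mono (-(n : ℤ))) = T (mono (-(n : ℤ))) * (U (mono (-(n : ℤ))) * U (mono n)) := by
          rw [h2, mul_one]
      _ = (T (mono (-(n : ℤ))) * T (mono n)) * U (mono (-(n : ℤ))) := by rw [hpos n]; ring
      _ = _ := by rw [h1, one_mul]
  have hall : ∀ n : ℤ, T (mono n) = U (mono n) := by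
    intro n
    obtain ⟨k, rfl | rfl⟩ := n.eq_nat_or_neg
    · exact hpos k
    · exact hneg k
  apply AlgHom.ext
  intro P
  induction P using AddMonoidAlgebra.induction_linear with
  | zero => simp
  | add P Q h1 h2 => rw [map_add, map_add, h1, h2]
  | single n c =>
    have : (AddMonoidAlgebra.single n c : GA) = c • mono n := by
      unfold mono
      rw [AddMonoidAlgebra.smul_single, smul_eq_mul, mul_one]
    rw [this, map_smul, map_smul, hall]

section radical

variable {A : Type} [NormedCommRing A] [NormedAlgebra ℂ A] [CompleteSpace A]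

/-- an element killed by all characters is in the radical -/
lemma mem_radical {x : A} (h : ∀ χ : WeakDual.characterSpace ℂ A, χ x = 0) :
    x ∈ (⊥ : Ideal A).jacobson := by
  rw [Ideal.mem_jacobson_bot]
  intro y
  by_contra hnu
  obtain ⟨χ, hχ⟩ := WeakDual.CharacterSpace.exists_apply_eq_zero hnu
  rw [map_add, map_mul, h χ, zero_mul, zero_add, map_one] at hχ
  exact one_ne_zero hχ

omit [CompleteSpace A] in
/-- characters kill the radical -/
lemma char_radical {x : A} (hx : x ∈ (⊥ : Ideal A).jacobson) (χ : A →ₐ[ℂ] ℂ) : χ x = 0 := by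
  have hmax : (RingHom.ker (χ : A →+* ℂ)).IsMaximal := by
    apply RingHom.ker_isMaximal_of_surjective
    intro c
    exact ⟨algebraMap ℂ A c, by simp⟩
  rw [Ideal.jacobson, Ideal.mem_sInf] at hx
  have := hx ⟨bot_le, hmax⟩
  exact this

end radical

section semisimple

variable {A : Type} [NormedCommRing A] [NormedAlgebra ℂ A] [CompleteSpace A]

omit [CompleteSpace A] in
/-- an algebra with dense range of the group algebra and weighted `ℓ¹` norm is semisimple. -/
lemma semisimple_of (ι : GA →ₐ[ℂ] A) (hd : DenseRange ι) {Ω : ℤ → ℝ} (h1 : ∀ n, 1 ≤ Ω n)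
    (hn : ∀ P, ‖ι P‖ = wl1 Ω P)
    (hχ : ∀ ζ : ℂˣ, ‖(ζ : ℂ)‖ = 1 → ∃ χ : A →ₐ[ℂ] ℂ, (∀ P, χ (ι P) = evalAt ζ P) ∧
      ∀ x, ‖χ x‖ ≤ ‖x‖) : (⊥ : Ideal A).jacobson = ⊥ := by
  rw [eq_bot_iff]
  intro x hx
  rw [Ideal.mem_bot]
  have h0 : ∀ n, 0 ≤ Ω n := fun n => le_trans zero_le_one (h1 n)
  -- coefficients of approximations are small
  have hcoef : ∀ (P : GA) (δ : ℝ), ‖x - ι P‖ ≤ δ → ∀ n, ‖P.coeff n‖ ≤ δ := by
    intro P δ hP
    apply norm_coeff_le
    intro ζ hζ
    obtain ⟨χ, hχ1, hχ2⟩ := hχ ζ hζ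
    have e : evalAt ζ P = - χ (x - ι P) := by
      rw [map_sub, char_radical hx χ, hχ1]; ring
    rw [e, norm_neg]
    exact (hχ2 _).trans hP
  have hsmall : ∀ ε : ℝ, 0 < ε → ‖x‖ ≤ 4 * ε := by
    intro ε hε
    obtain ⟨_, hy, P, rfl⟩ := Metric.dense_iff.mp hd x ε hε
    rw [Metric.mem_ball, dist_comm, dist_eq_norm] at hy
    set SF : ℝ := ∑ n ∈ P.coeff.support, Ω n with hSF
    have hSF0 : 0 ≤ SF := Finset.sum_nonneg fun n _ => h0 n
    set δ : ℝ := ε / (1 + SF) with hδ
    have hδ0 : 0 < δ := by positivity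
    have hδε : δ ≤ ε := div_le_self hε.le (by linarith)
    have hδS : δ * SF ≤ ε := by
      rw [hδ, div_mul_eq_mul_div, div_le_iff₀ (by linarith)]
      nlinarith
    obtain ⟨_, hy2, Q, rfl⟩ := Metric.dense_iff.mp hd x δ hδ0
    rw [Metric.mem_ball, dist_comm, dist_eq_norm] at hy2
    have hQ := hcoef Q δ hy2.le
    have h2 : ‖ι (P - Q)‖ ≤ 2 * ε := by
      rw [map_sub]
      have : ι P - ι Q = (x - ι Q) - (x - ι P) := by ring
      rw [this]
      refine (norm_sub_le _ _).trans ?_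
      linarith
    rw [hn] at h2
    have h3 : wl1 Ω P ≤ wl1 Ω (P - Q) + δ * SF := by
      classical
      rw [wl1_eq_of_subset Ω (P - Q) (P.coeff.support ∪ (P - Q).coeff.support)
        Finset.subset_union_right]
      have h4 : ∑ n ∈ P.coeff.support, ‖(P - Q).coeff n‖ * Ω n ≤
          ∑ n ∈ P.coeff.support ∪ (P - Q).coeff.support, ‖(P - Q).coeff n‖ * Ω n :=
        Finset.sum_le_sum_of_subset_of_nonneg Finset.subset_union_left
          fun n _ _ => mul_nonneg (norm_nonneg _) (h0 n)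
      refine le_trans ?_ (add_le_add_left h4 _)
      rw [hSF, Finset.mul_sum, ← Finset.sum_add_distrib]
      unfold wl1
      apply Finset.sum_le_sum
      intro n _
      rw [← add_mul]
      apply mul_le_mul_of_nonneg_right _ (h0 n)
      have : P.coeff n = (P - Q).coeff n + Q.coeff n := by
        rw [AddMonoidAlgebra.coeff_sub, Finsupp.sub_apply]; ring
      rw [this]
      exact (norm_add_le _ _).trans (by have := hQ n; linarith)
    have h5 : ‖ι P‖ ≤ 3 * ε := by rw [hn]; linarith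
    calc ‖x‖ = ‖(x - ι P) + ι P‖ := by ring_nf
      _ ≤ ‖x - ι P‖ + ‖ι P‖ := norm_add_le _ _
      _ ≤ _ := by linarith
  have : ‖x‖ ≤ 0 := by
    apply le_of_forall_pos_le_add
    intro ε hε
    have := hsmall (ε / 4) (by positivity)
    linarith
  exact norm_le_zero_iff.mp this

end semisimple

section weak

variable {A : Type} [NormedCommRing A] [NormedAlgebra ℂ A]

/-- derivations vanish -/
lemma derivation_zero (ι : GA →ₐ[ℂ] A) (hd : DenseRange ι)
    (hs : ∀ η : ℝ, 0 < η → ∃ N : ℕ, 1 ≤ N ∧ ‖ι (mono N)‖ * ‖ι (mono (-N))‖ ≤ η * N)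
    (D : A →L[ℂ] (A →L[ℂ] ℂ))
    (hD : ∀ a b x : A, D (a * b) x = D b (x * a) + D a (b * x)) : D = 0 := by
  have hone : D 1 = 0 := by
    ext x
    have := hD 1 1 x
    simp only [mul_one, one_mul] at this
    rw [zero_apply]
    linear_combination -this
  have hpow : ∀ (N : ℕ) (x : A), D (ι (mono N)) x = N * D (ι (mono 1)) (ι (mono (N - 1)) * x) := by
    intro N
    induction N with
    | zero =>
      intro x
      have : mono ((0 : ℕ) : ℤ) = 1 := by rw [Nat.cast_zero]; exact mono_zero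
      rw [this, map_one, hone]
      simp
    | succ N ih =>
      intro x
      have e1 : mono ((N + 1 : ℕ) : ℤ) = mono N * mono 1 := by rw [mono_mul]; push_cast; rfl
      have e2 : ((N + 1 : ℕ) : ℤ) - 1 = N := by push_cast; ring
      have e3 : ι (mono ((N : ℤ) - 1)) * (ι (mono 1) * x) = ι (mono N) * x := by
        rw [← mul_assoc, ← map_mul, mono_mul]
        congr 3
        ring
      rw [e1, map_mul, hD, ih, e2, e3, mul_comm x]
      push_cast
      ring
  have hgen : D (ι (mono 1)) = 0 := by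
    ext y
    rw [zero_apply]
    have key : ∀ η : ℝ, 0 < η → ‖D (ι (mono 1)) y‖ ≤ η * (‖D‖ * ‖ι (mono 1) * y‖) := by
      intro η hη
      obtain ⟨N, hN, hb⟩ := hs η hη
      have hN' : (0 : ℝ) < N := by exact_mod_cast hN
      have h1 := hpow N (ι (mono (1 - N)) * y)
      have e3 : ι (mono ((N : ℤ) - 1)) * (ι (mono (1 - N)) * y) = y := by
        rw [← mul_assoc, ← map_mul, mono_mul]
        have : (N : ℤ) - 1 + (1 - N) = 0 := by ring
        rw [this, mono_zero, map_one, one_mul]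
      rw [e3] at h1
      have e4 : ι (mono (1 - N)) * y = ι (mono (-N)) * (ι (mono 1) * y) := by
        rw [← mul_assoc, ← map_mul, mono_mul]
        congr 3
        ring
      have h2 : (N : ℝ) * ‖D (ι (mono 1)) y‖ ≤
          (‖D‖ * ‖ι (mono N)‖) * (‖ι (mono (-N))‖ * ‖ι (mono 1) * y‖) := by
        calc (N : ℝ) * ‖D (ι (mono 1)) y‖ = ‖D (ι (mono N)) (ι (mono (1 - N)) * y)‖ := by
              rw [h1, norm_mul]; simp
          _ ≤ ‖D (ι (mono N))‖ * ‖ι (mono (1 - N)) * y‖ := ContinuousLinearMap.le_opNorm _ _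
          _ ≤ (‖D‖ * ‖ι (mono N)‖) * (‖ι (mono (-N))‖ * ‖ι (mono 1) * y‖) := by
              apply mul_le_mul (ContinuousLinearMap.le_opNorm _ _) _ (norm_nonneg _)
                (by positivity)
              rw [e4]
              exact norm_mul_le _ _
      have h3 : (‖D‖ * ‖ι (mono N)‖) * (‖ι (mono (-N))‖ * ‖ι (mono 1) * y‖) ≤
          (η * N) * (‖D‖ * ‖ι (mono 1) * y‖) := by
        calc _ = (‖ι (mono N)‖ * ‖ι (mono (-N))‖) * (‖D‖ * ‖ι (mono 1) * y‖) := by ring
          _ ≤ _ := mul_le_mul_of_nonneg_right hb (by positivity)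
      have h4 : (N : ℝ) * ‖D (ι (mono 1)) y‖ ≤ N * (η * (‖D‖ * ‖ι (mono 1) * y‖)) := by
        refine h2.trans (h3.trans (le_of_eq ?_)); ring
      exact le_of_mul_le_mul_left h4 hN'
    set c := ‖D‖ * ‖ι (mono 1) * y‖ with hc
    have hc0 : 0 ≤ c := by positivity
    have : ‖D (ι (mono 1)) y‖ ≤ 0 := by
      apply le_of_forall_pos_le_add
      intro ε hε
      have := key (ε / (1 + c)) (by positivity)
      refine this.trans ?_
      rw [zero_add, div_mul_eq_mul_div, div_le_iff₀ (by positivity)]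
      nlinarith
    exact norm_le_zero_iff.mp this
  have hpos : ∀ N : ℕ, D (ι (mono N)) = 0 := by
    intro N
    ext x
    rw [hpow, hgen]
    simp
  have hneg : ∀ N : ℕ, D (ι (mono (-(N : ℤ)))) = 0 := by
    intro N
    ext x
    have h1 := hD (ι (mono (-(N : ℤ)))) (ι (mono N)) (ι (mono (-(N : ℤ))) * x)
    rw [← map_mul, mono_mul, neg_add_cancel, mono_zero, map_one, hone, hpos] at h1
    rw [← mul_assoc, ← map_mul, mono_mul, add_neg_cancel, mono_zero, map_one, one_mul] at h1
    simp only [zero_apply, zero_add] at h1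
    rw [zero_apply]
    exact h1.symm
  have hall : ∀ n : ℤ, D (ι (mono n)) = 0 := by
    intro n
    obtain ⟨k, rfl | rfl⟩ := n.eq_nat_or_neg
    · exact hpos k
    · exact hneg k
  have hι : ∀ P : GA, D (ι P) = 0 := by
    intro P
    induction P using AddMonoidAlgebra.induction_linear with
    | zero => simp
    | add P Q h1 h2 => rw [map_add, map_add, h1, h2, add_zero]
    | single n c =>
      have : (AddMonoidAlgebra.single n c : GA) = c • mono n := by
        unfold mono
        rw [AddMonoidAlgebra.smul_single, smul_eq_mul, mul_one]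
      rw [this, map_smul, map_smul, hall]
      ext x
      simp
  apply ContinuousLinearMap.ext
  intro x
  rw [zero_apply]
  have hcl : IsClosed {x : A | D x = 0} := isClosed_eq D.continuous continuous_const
  exact hd.induction_on x hcl hι

end weak

/-- The main construction. -/
theorem main : ∃ (A : Type) (_ : NormedCommRing A) (_ : NormedAlgebra ℂ A) (_ : CompleteSpace A),
    ((⊥ : Ideal A).jacobson = ⊥ ∧ Nontrivial A) ∧
    (∃ (Ω : ℤ → ℝ) (ι : AddMonoidAlgebra ℂ ℤ →ₐ[ℂ] A),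
      (∀ n, 1 ≤ Ω n ∧ Ω n ≤ Real.exp (Real.sqrt |(n : ℝ)|)) ∧
      (∀ m n, Ω (m + n) ≤ Ω m * Ω n) ∧ DenseRange ι ∧
      ∀ P, ‖ι P‖ = ∑ n ∈ P.coeff.support, ‖P.coeff n‖ * Ω n) ∧
    (∀ D : A →L[ℂ] (A →L[ℂ] ℂ),
      (∀ a b x : A, D (a * b) x = D b (x * a) + D a (b * x)) → D = 0) ∧
    ∃ (B : Type) (_ : NormedCommRing B) (_ : NormedAlgebra ℂ B) (_ : CompleteSpace B)
      (φ ψ : A →ₐ[ℂ] B), Continuous φ ∧ Continuous ψ ∧ φ ≠ ψ ∧
        ∀ a, φ a - ψ a ∈ (⊥ : Ideal B).jacobson := by
  classical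
  obtain ⟨S, hS, hS1, hS2⟩ := exists_stages
  set sB : AlgSemi := qBAlg S hS with hsB
  set Ω : ℤ → ℝ := fun n => sB.q (AddMonoidAlgebra.single n 1) with hΩ
  have hΩ1 : ∀ n, 1 ≤ Ω n := fun n => le_qB S fun k => one_le_pS_single _ _
  have hΩ0 : ∀ n, 0 ≤ Ω n := fun n => le_trans zero_le_one (hΩ1 n)
  have hΩs : ∀ m n, Ω (m + n) ≤ Ω m * Ω n := by
    intro m n
    have := sB.mul (AddMonoidAlgebra.single m 1) (AddMonoidAlgebra.single n 1)
    rw [AddMonoidAlgebra.single_mul_single, mul_one] at this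
    exact this
  have hΩW : ∀ k n, Ω n ≤ (S k).W n := fun k n => (qB_le S _ k).trans (pS_single _ _)
  have hΩexp : ∀ n, Ω n ≤ Real.exp (Real.sqrt |(n : ℝ)|) := by
    intro n
    refine (hΩW 0 n).trans (((S 0).le_exp _).trans ?_)
    rw [Complex.norm_intCast]
  set sA : AlgSemi := wlAlg Ω hΩ0 hΩs with hsA
  obtain ⟨A, iA1, iA2, iA3, ιA, hdA, hnA, hextA⟩ := exists_completion sA
  obtain ⟨B, iB1, iB2, iB3, ιB, hdB, hnB, hextB⟩ := exists_completion sB
  have hnA' : ∀ P, ‖ιA P‖ = wl1 Ω P := hnA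
  have hmonoA : ∀ n : ℤ, ‖ιA (mono n)‖ = Ω n := by
    intro n
    rw [hnA']
    unfold mono
    rw [wl1_single, norm_one, one_mul]
  have hone : ‖(1 : B)‖ ≤ 1 := by
    have : (1 : B) = ιB (AddMonoidAlgebra.single 0 1) := by
      rw [← AddMonoidAlgebra.one_def, map_one]
    rw [this, hnB]
    have := hΩW 0 0
    rw [Int.cast_zero, W_zero] at this
    exact this
  -- the two homomorphisms
  obtain ⟨φ, hφc, hφ, -⟩ := hextA B ιB (fun P => by
    rw [hnB]; exact AlgSemi.le_wl1 sB P)
  obtain ⟨ψ, hψc, hψ, -⟩ := hextA B ((Algebra.ofId ℂ B).comp (evalAt 1)) (fun P => by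
    have h1 : ((Algebra.ofId ℂ B).comp (evalAt 1)) P = algebraMap ℂ B (evalAt 1 P) := rfl
    rw [h1, norm_algebraMap]
    have h2 := norm_evalAt_le hΩ1 1 (by simp) P
    have h3 := norm_nonneg (evalAt 1 P)
    calc ‖evalAt 1 P‖ * ‖(1 : B)‖ ≤ ‖evalAt 1 P‖ * 1 := mul_le_mul_of_nonneg_left hone h3
      _ ≤ _ := by rw [mul_one]; exact h2)
  have hψ1 : ψ (ιA (mono 1)) = 1 := by
    rw [hψ]
    have h1 : ((Algebra.ofId ℂ B).comp (evalAt 1)) (mono 1) = algebraMap ℂ B (evalAt 1 (mono 1)) :=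
      rfl
    rw [h1]
    unfold mono
    rw [evalAt_single]
    simp
  refine ⟨A, iA1, iA2, iA3, ⟨?_, ?_⟩, ⟨Ω, ιA, fun n => ⟨hΩ1 n, hΩexp n⟩, hΩs, hdA, hnA'⟩, ?_,
    B, iB1, iB2, iB3, φ, ψ, hφc, hψc, ?_, ?_⟩
  · apply semisimple_of ιA hdA hΩ1 hnA'
    intro ζ hζ
    obtain ⟨χ, -, hχ1, hχ2⟩ := hextA ℂ (evalAt ζ) (fun P => norm_evalAt_le hΩ1 ζ hζ P)
    exact ⟨χ, hχ1, hχ2⟩
  · refine ⟨⟨1, 0, fun h => ?_⟩⟩
    have h1 := hmonoA 0
    rw [mono_zero, map_one, h, norm_zero] at h1
    have := hΩ1 0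
    linarith
  · intro D hD
    apply derivation_zero ιA hdA _ D hD
    intro η hη
    obtain ⟨k, N, hN, hb⟩ := hS2 η hη
    refine ⟨N, hN, ?_⟩
    rw [hmonoA, hmonoA]
    refine le_trans ?_ hb
    apply mul_le_mul _ _ (hΩ0 _) (le_trans zero_le_one ((S k).one_le _))
    · exact_mod_cast hΩW k N
    · have := hΩW k (-N)
      push_cast at this
      exact this
  · intro heq
    have h1 : φ (ιA (mono 1)) = 1 := by rw [heq]; exact hψ1
    rw [hφ] at h1
    have h2 : ‖ιB (mono 1 - 1)‖ = 0 := by rw [map_sub, h1, map_one, sub_self, norm_zero]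
    rw [hnB] at h2
    have h3 : (1 : ℝ) / 4 ≤ sB.q (mono 1 - 1) := by
      apply le_qB
      intro k
      refine le_trans (hS1 k).le ?_
      have h4 := le_pS (S k) (mono 1 - 1) (S k).diff (S k).f_le
      have h5 := pair_diff (S k).f 0
      simp only [zero_add, Int.cast_zero, (S k).f_zero, sub_zero] at h5
      unfold mono at h4 ⊢
      rw [h5] at h4
      exact h4
    rw [h2] at h3
    norm_num at h3
  · intro a
    apply mem_radical
    intro χ
    have hχc : Continuous χ := χ.1.continuous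
    -- the value at the generator
    have hχ1 : χ (ιB (mono 1)) = 1 := by
      set c : ℂ := χ (ιB (mono 1)) - 1 with hc
      have hcx : c = χ (ιB (mono 1 - 1)) := by rw [hc, map_sub, map_sub, map_one, map_one]
      have hbound : ∀ x : B, ‖χ x‖ ≤ ‖x‖ := by
        intro x
        have h1 := WeakDual.CharacterSpace.norm_le_norm_one χ
        have h2 := ContinuousLinearMap.le_opNorm (WeakDual.toStrongDual (χ : WeakDual ℂ B)) x
        refine h2.trans ?_
        calc _ ≤ 1 * ‖x‖ := mul_le_mul_of_nonneg_right (h1.trans hone) (norm_nonneg _)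
          _ = _ := one_mul _
      have hj : ∀ j : ℕ, 1 ≤ j → ‖c‖ ≤ Real.exp 2 / j := by
        intro j hj1
        have h1 : ‖c‖ ^ j ≤ (Real.exp 2 / j) ^ j := by
          rw [← norm_pow, hcx, ← map_pow, ← map_pow]
          refine (hbound _).trans ?_
          rw [hnB]
          refine (qB_le S _ 0).trans ?_
          exact pS_pow_le (S 0) j hj1
        exact le_of_pow_le_pow_left₀ (by omega) (by positivity) h1
      have hlim : Tendsto (fun j : ℕ => Real.exp 2 / (j : ℝ)) atTop (𝓝 0) :=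
        tendsto_const_div_atTop_nhds_zero_nat _
      have : ‖c‖ ≤ 0 := by
        apply ge_of_tendsto hlim
        filter_upwards [eventually_ge_atTop 1] with j hj1 using hj j hj1
      have hc0 : c = 0 := norm_le_zero_iff.mp this
      rw [hc] at hc0
      exact sub_eq_zero.mp hc0
    -- the two composites agree
    have hdense : ∀ x : A, χ (φ x) = χ (ψ x) := by
      have hcl : IsClosed {x : A | χ (φ x) = χ (ψ x)} :=
        isClosed_eq (hχc.comp hφc) (hχc.comp hψc)
      intro x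
      refine hdA.induction_on x hcl ?_
      intro P
      let χ' : B →ₐ[ℂ] ℂ := WeakDual.CharacterSpace.toAlgHom χ
      have hχ' : ∀ x, χ' x = χ x := fun x => rfl
      have h1 : ((χ'.comp φ).comp ιA) = ((χ'.comp ψ).comp ιA) := by
        apply algHom_eq
        change χ' (φ (ιA (mono 1))) = χ' (ψ (ιA (mono 1)))
        rw [hψ1, map_one, hφ, hχ', hχ1]
      have h2 := congrArg (fun f : GA →ₐ[ℂ] ℂ => f P) h1
      exact h2
    rw [map_sub, hdense, sub_self]

end Pool.Agent.Helper287.HP
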