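import Pool.Agent.Helper287.HP.Cauchy

set_option autoImplicit false

/-! Quasi-nilpotence of `u - 1` for the stage seminorms. -/

namespace Pool.Agent.Helper287.HP

open Filter Topology

lemma pS_pow_le (s : Stage) (j : ℕ) (hj : 1 ≤ j) :
    pS s ((AddMonoidAlgebra.single 1 1 - 1 : GA) ^ j) ≤ (Real.exp 2 / j) ^ j := by
  have hj' : (1 : ℝ) ≤ j := by exact_mod_cast hj
  have hj0 : (0 : ℝ) < j := by linarith
  apply pS_le
  intro h hd hW
  apply pair_pow_le j h _ hd
  intro t ht0 htj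
  have hR : (0 : ℝ) < (j : ℝ) ^ 2 := by positivity
  have hC : ∀ z ∈ Metric.sphere (t : ℂ) ((j : ℝ) ^ 2), ‖h z‖ ≤ Real.exp (2 * j) := by
    intro z hz
    rw [mem_sphere_iff_norm] at hz
    refine (hW z).trans ((s.le_exp z).trans (Real.exp_le_exp.mpr ?_))
    apply Real.sqrt_le_iff.mpr
    refine ⟨by positivity, ?_⟩
    have h1 : ‖z‖ ≤ ‖z - t‖ + ‖(t : ℂ)‖ := by
      calc ‖z‖ = ‖(z - t) + t‖ := by ring_nf
        _ ≤ _ := norm_add_le _ _
    rw [Complex.norm_real, Real.norm_of_nonneg ht0, hz] at h1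
    nlinarith
  have h1 := Complex.norm_iteratedDeriv_le_of_forall_mem_sphere_norm_le j hR
    hd.diffContOnCl hC
  refine h1.trans ?_
  have h2 : (j.factorial : ℝ) ≤ (j : ℝ) ^ j := by exact_mod_cast Nat.factorial_le_pow j
  rw [div_pow, ← Real.exp_nat_mul, div_le_div_iff₀ (by positivity) (by positivity)]
  calc (j.factorial : ℝ) * Real.exp (2 * j) * (j : ℝ) ^ j
      ≤ (j : ℝ) ^ j * Real.exp (2 * j) * (j : ℝ) ^ j := by
        apply mul_le_mul_of_nonneg_right _ (by positivity)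
        exact mul_le_mul_of_nonneg_right h2 (by positivity)
    _ = _ := by rw [← pow_mul, mul_comm 2 j, pow_mul]; ring_nf

end Pool.Agent.Helper287.HP
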