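import Pool.Agent.Helper287.HP.Exist

set_option autoImplicit false

/-! Algebra seminorms on the group algebra of the integers. -/

namespace Pool.Agent.Helper287.HP

open Filter Topology

/-- The complex group algebra of the integers. -/
abbrev GA : Type := AddMonoidAlgebra ℂ ℤ

/-- Pairing of a group algebra element with a function on the integers. -/
noncomputable def pair (h : ℤ → ℂ) (P : GA) : ℂ := Finsupp.linearCombination ℂ h P.coeff

lemma pair_add (h : ℤ → ℂ) (P Q : GA) : pair h (P + Q) = pair h P + pair h Q := by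
  unfold pair
  rw [AddMonoidAlgebra.coeff_add, map_add]

lemma pair_zero (h : ℤ → ℂ) : pair h 0 = 0 := by
  unfold pair
  simp

lemma pair_smul (h : ℤ → ℂ) (c : ℂ) (P : GA) : pair h (c • P) = c * pair h P := by
  unfold pair
  rw [AddMonoidAlgebra.coeff_smul, map_smul, smul_eq_mul]

lemma pair_single (h : ℤ → ℂ) (n : ℤ) (c : ℂ) : pair h (AddMonoidAlgebra.single n c) = c * h n := by
  unfold pair
  rw [AddMonoidAlgebra.coeff_single, Finsupp.linearCombination_single, smul_eq_mul]

lemma pair_eq_sum (h : ℤ → ℂ) (P : GA) :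
    pair h P = ∑ n ∈ P.coeff.support, P.coeff n * h n := by
  unfold pair
  rw [Finsupp.linearCombination_apply, Finsupp.sum]
  rfl

lemma pair_add_fun (h g : ℤ → ℂ) (P : GA) :
    pair (fun n => h n + g n) P = pair h P + pair g P := by
  simp only [pair_eq_sum, mul_add, Finset.sum_add_distrib]

lemma pair_mul_fun (c : ℂ) (h : ℤ → ℂ) (P : GA) :
    pair (fun n => c * h n) P = c * pair h P := by
  simp only [pair_eq_sum, Finset.mul_sum]
  exact Finset.sum_congr rfl fun _ _ => by ring

lemma pair_mul (h : ℤ → ℂ) (P Q : GA) :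
    pair h (P * Q) = pair (fun m => pair (fun n => h (m + n)) Q) P := by
  induction P using AddMonoidAlgebra.induction_linear with
  | zero => simp [pair_zero]
  | add P1 P2 h1 h2 => rw [add_mul, pair_add, h1, h2, pair_add]
  | single m c =>
    rw [pair_single]
    induction Q using AddMonoidAlgebra.induction_linear with
    | zero => simp [pair_zero]
    | add Q1 Q2 h1 h2 => rw [mul_add, pair_add, h1, h2, pair_add]; ring
    | single n e =>
      rw [AddMonoidAlgebra.single_mul_single, pair_single, pair_single]; ring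

/-- The weighted `ℓ¹` norm. -/
noncomputable def wl1 (Ω : ℤ → ℝ) (P : GA) : ℝ := ∑ n ∈ P.coeff.support, ‖P.coeff n‖ * Ω n

lemma norm_pair_le {h : ℤ → ℂ} {Ω : ℤ → ℝ} (hh : ∀ n, ‖h n‖ ≤ Ω n) (P : GA) :
    ‖pair h P‖ ≤ wl1 Ω P := by
  rw [pair_eq_sum]
  refine (norm_sum_le _ _).trans ?_
  apply Finset.sum_le_sum
  intro n _
  rw [norm_mul]
  exact mul_le_mul_of_nonneg_left (hh n) (norm_nonneg _)

/-- Entire functions below the weight of a stage. -/
def Hset (s : Stage) : Set (ℂ → ℂ) := {h | Differentiable ℂ h ∧ ∀ z, ‖h z‖ ≤ s.W z}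

/-- The seminorm of a stage. -/
noncomputable def pS (s : Stage) (P : GA) : ℝ := ⨆ h : Hset s, ‖pair (fun n : ℤ => h.1 (n : ℂ)) P‖

lemma pS_bdd (s : Stage) (P : GA) :
    BddAbove (Set.range fun h : Hset s => ‖pair (fun n : ℤ => h.1 (n : ℂ)) P‖) := by
  refine ⟨wl1 (fun n => s.W n) P, ?_⟩
  rintro _ ⟨h, rfl⟩
  exact norm_pair_le (fun n => h.2.2 n) P

lemma le_pS (s : Stage) (P : GA) {h : ℂ → ℂ} (hd : Differentiable ℂ h) (hW : ∀ z, ‖h z‖ ≤ s.W z) :
    ‖pair (fun n : ℤ => h (n : ℂ)) P‖ ≤ pS s P :=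
  le_ciSup (pS_bdd s P) (⟨h, hd, hW⟩ : Hset s)

instance (s : Stage) : Nonempty (Hset s) :=
  ⟨⟨fun _ => 0, by fun_prop, fun z => by simpa using le_trans zero_le_one (s.one_le z)⟩⟩

lemma pS_le {s : Stage} {P : GA} {c : ℝ}
    (H : ∀ h : ℂ → ℂ, Differentiable ℂ h → (∀ z, ‖h z‖ ≤ s.W z) →
      ‖pair (fun n : ℤ => h (n : ℂ)) P‖ ≤ c) : pS s P ≤ c :=
  ciSup_le fun h => H h.1 h.2.1 h.2.2

lemma pS_nonneg (s : Stage) (P : GA) : 0 ≤ pS s P := by
  refine le_trans (norm_nonneg _) (le_pS s P (h := fun _ => 0) (by fun_prop) fun z => ?_)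
  simpa using le_trans zero_le_one (s.one_le z)

lemma pS_zero (s : Stage) : pS s 0 = 0 := by
  apply le_antisymm _ (pS_nonneg s 0)
  exact pS_le fun h _ _ => by rw [pair_zero]; simp

lemma pS_add (s : Stage) (P Q : GA) : pS s (P + Q) ≤ pS s P + pS s Q := by
  apply pS_le
  intro h hd hW
  rw [pair_add]
  exact (norm_add_le _ _).trans (add_le_add (le_pS s P hd hW) (le_pS s Q hd hW))

lemma pS_smul_le (s : Stage) (c : ℂ) (P : GA) : pS s (c • P) ≤ ‖c‖ * pS s P := by
  apply pS_le
  intro h hd hW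
  rw [pair_smul, norm_mul]
  exact mul_le_mul_of_nonneg_left (le_pS s P hd hW) (norm_nonneg _)

lemma pS_mul (s : Stage) (P Q : GA) : pS s (P * Q) ≤ pS s P * pS s Q := by
  apply pS_le
  intro h hd hW
  rw [pair_mul]
  -- g z = sum over Q of shifts
  have hg : ∀ z : ℂ, ‖pair (fun n : ℤ => h (z + n)) Q‖ ≤ pS s Q * s.W z := by
    intro z
    have hWz : 0 < s.W z := lt_of_lt_of_le one_pos (s.one_le z)
    have h1 : ‖pair (fun n : ℤ => ((s.W z : ℝ) : ℂ)⁻¹ * h (z + n)) Q‖ ≤ pS s Q := by
      apply le_pS s Q (h := fun u => ((s.W z : ℝ) : ℂ)⁻¹ * h (z + u))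
      · exact (hd.comp (by fun_prop)).const_mul _
      · intro u
        rw [norm_mul, norm_inv, Complex.norm_real, Real.norm_of_nonneg hWz.le,
          inv_mul_le_iff₀ hWz]
        exact (hW _).trans (s.sub z u)
    rw [pair_mul_fun, norm_mul, norm_inv, Complex.norm_real, Real.norm_of_nonneg hWz.le,
      inv_mul_le_iff₀ hWz] at h1
    linarith
  by_cases hQ : pS s Q = 0
  · have : ∀ m : ℤ, pair (fun n : ℤ => h (((m + n : ℤ)) : ℂ)) Q = 0 := by
      intro m
      have := hg m
      rw [hQ, zero_mul] at this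
      have h2 := norm_le_zero_iff.mp this
      push_cast
      exact h2
    simp only [this, hQ, mul_zero]
    rw [pair_eq_sum]
    simp
  · have hQ' : 0 < pS s Q := lt_of_le_of_ne (pS_nonneg s Q) (Ne.symm hQ)
    have h1 : ‖pair (fun m : ℤ => ((pS s Q : ℝ) : ℂ)⁻¹ *
        pair (fun n : ℤ => h ((m : ℂ) + n)) Q) P‖ ≤ pS s P := by
      apply le_pS s P (h := fun z => ((pS s Q : ℝ) : ℂ)⁻¹ * pair (fun n : ℤ => h (z + n)) Q)
      · apply Differentiable.const_mul
        simp only [pair_eq_sum]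
        apply Differentiable.fun_sum
        intro n _
        exact (hd.comp (by fun_prop)).const_mul _
      · intro z
        rw [norm_mul, norm_inv, Complex.norm_real, Real.norm_of_nonneg hQ'.le,
          inv_mul_le_iff₀ hQ']
        exact hg z
    rw [pair_mul_fun, norm_mul, norm_inv, Complex.norm_real, Real.norm_of_nonneg hQ'.le,
      inv_mul_le_iff₀ hQ'] at h1
    push_cast
    linarith

lemma pS_anti {s t : Stage} (h : ∀ z, t.W z ≤ s.W z) (P : GA) : pS t P ≤ pS s P := by
  apply pS_le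
  intro g hd hW
  exact le_pS s P hd fun z => (hW z).trans (h z)

lemma pS_single (s : Stage) (n : ℤ) : pS s (AddMonoidAlgebra.single n 1) ≤ s.W n := by
  apply pS_le
  intro h hd hW
  rw [pair_single, one_mul]
  exact hW _

lemma one_le_pS_single (s : Stage) (n : ℤ) : 1 ≤ pS s (AddMonoidAlgebra.single n 1) := by
  have := le_pS s (AddMonoidAlgebra.single n 1) (h := fun _ => 1) (by fun_prop)
    (fun z => by simpa using s.one_le z)
  rw [pair_single] at this
  simpa using this


end Pool.Agent.Helper287.HP
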