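import Mathlib

set_option autoImplicit false

/-! Stages: submultiplicative weights on the complex plane with an entire function below them. -/

namespace Pool.Agent.Helper287.HP

open Filter Topology

/-- A submultiplicative weight `W` on the additive group of complex numbers with `1 ≤ W`,
`W z ≤ exp (√|z|)`, growing faster than each polynomial, and an entire function `f` of polynomial
growth with `|f| ≤ W`. -/
structure Stage where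
  W : ℂ → ℝ
  f : ℂ → ℂ
  d : ℕ
  one_le : ∀ z, 1 ≤ W z
  sub : ∀ z u, W (z + u) ≤ W z * W u
  le_exp : ∀ z, W z ≤ Real.exp (Real.sqrt ‖z‖)
  growth : ∀ D : ℕ, ∃ A : ℝ, 0 < A ∧ ∀ z, (1 + ‖z‖) ^ D ≤ A * W z
  diff : Differentiable ℂ f
  f_poly : ∀ z, ‖f z‖ ≤ (1 + ‖z‖) ^ d
  f_le : ∀ z, ‖f z‖ ≤ W z
  f_zero : f 0 = 0

/-- The new weight. -/
noncomputable def newW (W : ℂ → ℝ) (M : ℕ) (z : ℂ) : ℝ :=
  ⨅ a : ℤ, (M : ℝ) ^ a.natAbs * W (z - a * (M : ℂ) ^ 3)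

section newW

variable {W : ℂ → ℝ} {M : ℕ}

lemma term_ge_one (h1 : ∀ z, 1 ≤ W z) (hM : 1 ≤ M) (z : ℂ) (a : ℤ) :
    1 ≤ (M : ℝ) ^ a.natAbs * W (z - a * (M : ℂ) ^ 3) := by
  have hM' : (1 : ℝ) ≤ M := by exact_mod_cast hM
  have h2 : (1 : ℝ) ≤ (M : ℝ) ^ a.natAbs := one_le_pow₀ hM'
  nlinarith [h1 (z - a * (M : ℂ) ^ 3)]

lemma newW_bdd (h1 : ∀ z, 1 ≤ W z) (hM : 1 ≤ M) (z : ℂ) :
    BddBelow (Set.range fun a : ℤ => (M : ℝ) ^ a.natAbs * W (z - a * (M : ℂ) ^ 3)) :=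
  ⟨1, by rintro _ ⟨a, rfl⟩; exact term_ge_one h1 hM z a⟩

lemma newW_le (h1 : ∀ z, 1 ≤ W z) (hM : 1 ≤ M) (z : ℂ) (a : ℤ) :
    newW W M z ≤ (M : ℝ) ^ a.natAbs * W (z - a * (M : ℂ) ^ 3) :=
  ciInf_le (newW_bdd h1 hM z) a

lemma le_newW {c : ℝ} {z : ℂ} (h : ∀ a : ℤ, c ≤ (M : ℝ) ^ a.natAbs * W (z - a * (M : ℂ) ^ 3)) :
    c ≤ newW W M z :=
  le_ciInf h

lemma one_le_newW (h1 : ∀ z, 1 ≤ W z) (hM : 1 ≤ M) (z : ℂ) : 1 ≤ newW W M z :=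
  le_newW (term_ge_one h1 hM z)

lemma newW_le_self (h1 : ∀ z, 1 ≤ W z) (hM : 1 ≤ M) (z : ℂ) : newW W M z ≤ W z := by
  simpa using newW_le h1 hM z 0

lemma newW_sub (h1 : ∀ z, 1 ≤ W z) (hs : ∀ z u, W (z + u) ≤ W z * W u) (hM : 1 ≤ M) (z u : ℂ) :
    newW W M (z + u) ≤ newW W M z * newW W M u := by
  have hM' : (1 : ℝ) ≤ M := by exact_mod_cast hM
  have hM0 : (0 : ℝ) < M := by linarith
  have key : ∀ a b : ℤ, newW W M (z + u) ≤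
      ((M : ℝ) ^ a.natAbs * W (z - a * (M : ℂ) ^ 3)) *
        ((M : ℝ) ^ b.natAbs * W (u - b * (M : ℂ) ^ 3)) := by
    intro a b
    refine (newW_le h1 hM (z + u) (a + b)).trans ?_
    have e1 : (M : ℝ) ^ (a + b).natAbs ≤ (M : ℝ) ^ a.natAbs * (M : ℝ) ^ b.natAbs := by
      rw [← pow_add]
      exact pow_le_pow_right₀ hM' (Int.natAbs_add_le a b)
    have e2 : W (z + u - ((a + b : ℤ) : ℂ) * (M : ℂ) ^ 3) ≤
        W (z - a * (M : ℂ) ^ 3) * W (u - b * (M : ℂ) ^ 3) := by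
      have : z + u - ((a + b : ℤ) : ℂ) * (M : ℂ) ^ 3 =
          (z - a * (M : ℂ) ^ 3) + (u - b * (M : ℂ) ^ 3) := by push_cast; ring
      rw [this]
      exact hs _ _
    have e3 : (0 : ℝ) < (M : ℝ) ^ (a + b).natAbs := by positivity
    have e4 : 0 ≤ W (z - a * (M : ℂ) ^ 3) * W (u - b * (M : ℂ) ^ 3) := by
      have := h1 (z - a * (M : ℂ) ^ 3)
      have := h1 (u - b * (M : ℂ) ^ 3)
      positivity
    calc _ ≤ (M : ℝ) ^ (a + b).natAbs * (W (z - a * (M : ℂ) ^ 3) * W (u - b * (M : ℂ) ^ 3)) :=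
          mul_le_mul_of_nonneg_left e2 e3.le
      _ ≤ ((M : ℝ) ^ a.natAbs * (M : ℝ) ^ b.natAbs) *
          (W (z - a * (M : ℂ) ^ 3) * W (u - b * (M : ℂ) ^ 3)) :=
          mul_le_mul_of_nonneg_right e1 e4
      _ = _ := by ring
  have pos : ∀ (z : ℂ) (a : ℤ), 0 < (M : ℝ) ^ a.natAbs * W (z - a * (M : ℂ) ^ 3) := fun z a =>
    lt_of_lt_of_le one_pos (term_ge_one h1 hM z a)
  have step1 : ∀ a : ℤ, newW W M (z + u) ≤
      ((M : ℝ) ^ a.natAbs * W (z - a * (M : ℂ) ^ 3)) * newW W M u := by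
    intro a
    rw [← div_le_iff₀' (pos z a)]
    apply le_newW
    intro b
    rw [div_le_iff₀' (pos z a)]
    exact key a b
  have hu : 0 < newW W M u := lt_of_lt_of_le one_pos (one_le_newW h1 hM u)
  rw [← div_le_iff₀ hu]
  apply le_newW
  intro a
  rw [div_le_iff₀ hu]
  exact step1 a

/-- polynomial against exponential -/
lemma exists_poly_le_two_pow (E : ℕ) : ∃ B : ℝ, 0 < B ∧ ∀ n : ℕ, ((1 : ℝ) + n) ^ E ≤ B * 2 ^ n := by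
  have h := tendsto_pow_const_div_const_pow_of_one_lt E (one_lt_two : (1 : ℝ) < 2)
  have h2 := h.bddAbove_range
  obtain ⟨C, hC⟩ := h2
  refine ⟨2 * |C| + 1, by positivity, fun n => ?_⟩
  have h3 : ((n + 1 : ℕ) : ℝ) ^ E / 2 ^ (n + 1) ≤ C := hC ⟨n + 1, rfl⟩
  rw [div_le_iff₀ (by positivity)] at h3
  have h4 : ((1 : ℝ) + n) ^ E ≤ C * 2 ^ (n + 1) := by
    have : (1 : ℝ) + n = ((n + 1 : ℕ) : ℝ) := by push_cast; ring
    rw [this]; exact h3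
  have h5 : (0 : ℝ) < 2 ^ n := by positivity
  calc ((1 : ℝ) + n) ^ E ≤ C * 2 ^ (n + 1) := h4
    _ = (2 * C) * 2 ^ n := by ring
    _ ≤ (2 * |C| + 1) * 2 ^ n := by
      apply mul_le_mul_of_nonneg_right _ h5.le
      linarith [le_abs_self C]

lemma newW_growth (h1 : ∀ z, 1 ≤ W z)
    (hg : ∀ D : ℕ, ∃ A : ℝ, 0 < A ∧ ∀ z, (1 + ‖z‖) ^ D ≤ A * W z) (hM : 2 ≤ M) (D : ℕ) :
    ∃ A : ℝ, 0 < A ∧ ∀ z, (1 + ‖z‖) ^ D ≤ A * newW W M z := by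
  obtain ⟨A, hA, hAW⟩ := hg D
  obtain ⟨B, hB, hBn⟩ := exists_poly_le_two_pow D
  have hM' : (2 : ℝ) ≤ M := by exact_mod_cast hM
  refine ⟨A * (((M : ℝ) ^ 3) ^ D * B), by positivity, fun z => ?_⟩
  rw [← div_le_iff₀' (by positivity)]
  apply le_newW
  intro a
  rw [div_le_iff₀' (by positivity)]
  set b := z - a * (M : ℂ) ^ 3 with hb
  have hz : z = b + a * (M : ℂ) ^ 3 := by rw [hb]; ring
  have hnat : (((a.natAbs : ℕ)) : ℝ) = |(a : ℝ)| := by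
    rw [Nat.cast_natAbs]; simp
  have e1 : 1 + ‖z‖ ≤ (1 + ‖b‖) * ((M : ℝ) ^ 3 * (1 + a.natAbs)) := by
    have : ‖z‖ ≤ ‖b‖ + a.natAbs * (M : ℝ) ^ 3 := by
      rw [hz]
      refine (norm_add_le _ _).trans ?_
      rw [norm_mul, norm_pow, Complex.norm_intCast, Complex.norm_natCast, hnat]
    have hM3 : (1 : ℝ) ≤ (M : ℝ) ^ 3 := one_le_pow₀ (by linarith)
    have hb0 := norm_nonneg b
    have ha0 : (0 : ℝ) ≤ a.natAbs := by positivity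
    nlinarith [mul_nonneg hb0 ha0, mul_nonneg hb0 (by linarith : (0 : ℝ) ≤ (M : ℝ) ^ 3 - 1),
      mul_nonneg (mul_nonneg hb0 ha0) (by linarith : (0 : ℝ) ≤ (M : ℝ) ^ 3)]
  have e2 : (1 + ‖z‖) ^ D ≤ (1 + ‖b‖) ^ D * (((M : ℝ) ^ 3) ^ D * (1 + a.natAbs) ^ D) := by
    calc _ ≤ ((1 + ‖b‖) * ((M : ℝ) ^ 3 * (1 + a.natAbs))) ^ D :=
          pow_le_pow_left₀ (by positivity) e1 D
      _ = _ := by rw [mul_pow, mul_pow]
  have e3 : ((1 : ℝ) + a.natAbs) ^ D ≤ B * (M : ℝ) ^ a.natAbs :=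
    (hBn a.natAbs).trans (mul_le_mul_of_nonneg_left
      (pow_le_pow_left₀ (by norm_num) hM' _) hB.le)
  calc _ ≤ (1 + ‖b‖) ^ D * (((M : ℝ) ^ 3) ^ D * (1 + a.natAbs) ^ D) := e2
    _ ≤ (A * W b) * (((M : ℝ) ^ 3) ^ D * (B * (M : ℝ) ^ a.natAbs)) := by
      apply mul_le_mul (hAW b) _ (by positivity) _
      · exact mul_le_mul_of_nonneg_left e3 (by positivity)
      · have := h1 b; positivity
    _ = _ := by ring

end newW

/-- The new factor. -/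
noncomputable def newH (d M : ℕ) (z : ℂ) : ℂ :=
  ∏ a ∈ Finset.range (3 * d), (1 - z ^ 2 / ((((a + 1 : ℕ) : ℂ)) * (M : ℂ) ^ 3) ^ 2) ^ d

lemma newH_diff (d M : ℕ) : Differentiable ℂ (newH d M) := by
  unfold newH
  fun_prop

lemma factor_le (M : ℕ) (hM : 1 ≤ M) (a : ℕ) (z : ℂ) :
    ‖1 - z ^ 2 / ((((a + 1 : ℕ) : ℂ)) * (M : ℂ) ^ 3) ^ 2‖ ≤ 1 + (‖z‖ / (M : ℝ) ^ 3) ^ 2 := by
  refine (norm_sub_le _ _).trans ?_
  rw [norm_one, norm_div, norm_pow, norm_pow, norm_mul, norm_pow, Complex.norm_natCast,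
    Complex.norm_natCast]
  have hM' : (1 : ℝ) ≤ M := by exact_mod_cast hM
  have ha : (1 : ℝ) ≤ ((a + 1 : ℕ) : ℝ) := by push_cast; linarith [(Nat.cast_nonneg a : (0 : ℝ) ≤ a)]
  have : ‖z‖ ^ 2 / (((a + 1 : ℕ) : ℝ) * (M : ℝ) ^ 3) ^ 2 ≤ (‖z‖ / (M : ℝ) ^ 3) ^ 2 := by
    rw [div_pow]
    apply div_le_div_of_nonneg_left (by positivity) (by positivity)
    apply pow_le_pow_left₀ (by positivity)
    nlinarith [pow_pos (lt_of_lt_of_le one_pos hM') 3]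
  linarith

lemma newH_le (d M : ℕ) (hM : 1 ≤ M) (z : ℂ) :
    ‖newH d M z‖ ≤ (1 + (‖z‖ / (M : ℝ) ^ 3) ^ 2) ^ (3 * d * d) := by
  unfold newH
  rw [norm_prod]
  calc ∏ a ∈ Finset.range (3 * d), ‖(1 - z ^ 2 / ((((a + 1 : ℕ) : ℂ)) * (M : ℂ) ^ 3) ^ 2) ^ d‖
      ≤ ∏ a ∈ Finset.range (3 * d), (1 + (‖z‖ / (M : ℝ) ^ 3) ^ 2) ^ d := by
        apply Finset.prod_le_prod (fun _ _ => norm_nonneg _)
        intro a _
        rw [norm_pow]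
        exact pow_le_pow_left₀ (norm_nonneg _) (factor_le M hM a z) d
    _ = _ := by rw [Finset.prod_const, Finset.card_range, ← pow_mul]; ring_nf

end Pool.Agent.Helper287.HP
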