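import Pool.Agent.Helper287.HP.Stage

set_option autoImplicit false

/-! The step: enlarging a stage. -/

namespace Pool.Agent.Helper287.HP

open Filter Topology

lemma factor_near (M : ℕ) (hM : 1 ≤ M) (a : ℤ) (ha : a ≠ 0) (z : ℂ) :
    ‖1 - z ^ 2 / (((a.natAbs : ℕ) : ℂ) * (M : ℂ) ^ 3) ^ 2‖ ≤
      2 * (1 + ‖z - a * (M : ℂ) ^ 3‖) ^ 2 / (M : ℝ) ^ 3 := by
  set N : ℝ := (M : ℝ) ^ 3 with hN
  have hM' : (1 : ℝ) ≤ M := by exact_mod_cast hM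
  have hN1 : 1 ≤ N := one_le_pow₀ hM'
  set b := z - a * (M : ℂ) ^ 3 with hb
  have hz : z = b + a * (M : ℂ) ^ 3 := by rw [hb]; ring
  have hMC : (M : ℂ) ≠ 0 := by
    have : M ≠ 0 := by omega
    exact_mod_cast this
  have hac : (a : ℂ) ≠ 0 := by exact_mod_cast ha
  have hsq : (((a.natAbs : ℕ) : ℂ) * (M : ℂ) ^ 3) ^ 2 = ((a : ℂ) * (M : ℂ) ^ 3) ^ 2 := by
    rw [mul_pow, mul_pow]
    congr 1
    have : ((a.natAbs : ℤ)) ^ 2 = a ^ 2 := Int.natAbs_sq a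
    have h2 : (((a.natAbs : ℤ) : ℂ)) ^ 2 = (a : ℂ) ^ 2 := by
      rw [← Int.cast_pow, this, Int.cast_pow]
    rw [← h2, Int.cast_natCast]
  rw [hsq]
  have e : 1 - z ^ 2 / ((a : ℂ) * (M : ℂ) ^ 3) ^ 2 =
      - (b * (2 * (a * (M : ℂ) ^ 3) + b)) / ((a : ℂ) * (M : ℂ) ^ 3) ^ 2 := by
    have : ((a : ℂ) * (M : ℂ) ^ 3) ≠ 0 := mul_ne_zero hac (pow_ne_zero _ hMC)
    rw [hz]
    field_simp
    ring
  have hna : ‖((a : ℂ) * (M : ℂ) ^ 3)‖ = |(a : ℝ)| * N := by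
    rw [norm_mul, norm_pow, Complex.norm_intCast, Complex.norm_natCast]
  have ha1 : (1 : ℝ) ≤ |(a : ℝ)| := by
    have : (1 : ℤ) ≤ |a| := Int.one_le_abs ha
    exact_mod_cast this
  rw [e, norm_div, norm_neg, norm_mul, norm_pow, hna]
  have hb0 := norm_nonneg b
  have h2 : ‖2 * (a * (M : ℂ) ^ 3) + b‖ ≤ 2 * (|(a : ℝ)| * N) + ‖b‖ := by
    refine (norm_add_le _ _).trans ?_
    rw [norm_mul, hna]
    simp
  have haN : 1 ≤ |(a : ℝ)| * N := by nlinarith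
  rw [div_le_div_iff₀ (by positivity) (by positivity)]
  set x := |(a : ℝ)| * N with hx
  have hxN : N ≤ x := by rw [hx]; nlinarith
  have h3 : ‖b‖ * ‖2 * (a * (M : ℂ) ^ 3) + b‖ ≤ ‖b‖ * (2 * x + ‖b‖) :=
    mul_le_mul_of_nonneg_left h2 hb0
  have h4 : ‖b‖ * (2 * x + ‖b‖) ≤ 2 * (1 + ‖b‖) ^ 2 * x := by
    have : ‖b‖ ^ 2 ≤ ‖b‖ ^ 2 * x := by nlinarith [sq_nonneg ‖b‖]
    nlinarith [mul_nonneg hb0 (by linarith : (0:ℝ) ≤ x)]
  have hx0 : 0 ≤ x := by linarith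
  calc ‖b‖ * ‖2 * (a * (M : ℂ) ^ 3) + b‖ * N ≤ (2 * (1 + ‖b‖) ^ 2 * x) * N :=
        mul_le_mul_of_nonneg_right (h3.trans h4) (by linarith)
    _ ≤ (2 * (1 + ‖b‖) ^ 2 * x) * x := mul_le_mul_of_nonneg_left hxN (by positivity)
    _ = _ := by ring

lemma newH_near (d M : ℕ) (hM : 1 ≤ M) (a : ℤ) (ha : a ≠ 0) (had : a.natAbs ≤ 3 * d) (z : ℂ) :
    ‖newH d M z‖ ≤ (2 * (1 + ‖z - a * (M : ℂ) ^ 3‖) ^ 2 / (M : ℝ) ^ 3) ^ d *
      (1 + (‖z‖ / (M : ℝ) ^ 3) ^ 2) ^ (3 * d * d) := by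
  have hpos : 1 ≤ a.natAbs := Int.natAbs_pos.mpr ha
  have hmem : a.natAbs - 1 ∈ Finset.range (3 * d) := Finset.mem_range.mpr (by omega)
  unfold newH
  rw [← Finset.mul_prod_erase _ _ hmem, norm_mul, norm_prod]
  have hcast : ((a.natAbs - 1 + 1 : ℕ) : ℂ) = ((a.natAbs : ℕ) : ℂ) := by
    congr 1; omega
  apply mul_le_mul
  · rw [norm_pow]
    apply pow_le_pow_left₀ (norm_nonneg _)
    rw [hcast]
    exact factor_near M hM a ha z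
  · have hbase : (1 : ℝ) ≤ 1 + (‖z‖ / (M : ℝ) ^ 3) ^ 2 := by
      have := sq_nonneg (‖z‖ / (M : ℝ) ^ 3); linarith
    calc ∏ x ∈ (Finset.range (3 * d)).erase (a.natAbs - 1),
          ‖(1 - z ^ 2 / ((((x + 1 : ℕ) : ℂ)) * (M : ℂ) ^ 3) ^ 2) ^ d‖
        ≤ ∏ x ∈ (Finset.range (3 * d)).erase (a.natAbs - 1),
          (1 + (‖z‖ / (M : ℝ) ^ 3) ^ 2) ^ d := by
          apply Finset.prod_le_prod (fun _ _ => norm_nonneg _)
          intro x _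
          rw [norm_pow]
          exact pow_le_pow_left₀ (norm_nonneg _) (factor_le M hM x z) d
      _ = ((1 + (‖z‖ / (M : ℝ) ^ 3) ^ 2) ^ d) ^ (3 * d - 1) := by
          rw [Finset.prod_const, Finset.card_erase_of_mem hmem, Finset.card_range]
      _ = (1 + (‖z‖ / (M : ℝ) ^ 3) ^ 2) ^ (d * (3 * d - 1)) := by rw [← pow_mul]
      _ ≤ _ := by
          apply pow_le_pow_right₀ hbase
          calc d * (3 * d - 1) ≤ d * (3 * d) := Nat.mul_le_mul_left _ (Nat.sub_le _ _)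
            _ = 3 * d * d := by ring
  · positivity
  · positivity

/-- the general estimate for the product away from the origin, `|a| ≤ 3 d` -/
lemma prod_near (s : Stage) (M : ℕ) (hM : 1 ≤ M) (a : ℤ) (ha : a ≠ 0)
    (had : a.natAbs ≤ 3 * s.d) (z : ℂ) :
    ‖s.f z * newH s.d M z‖ ≤ 2 ^ s.d * (1 + (a.natAbs : ℝ)) ^ (s.d + 2 * (3 * s.d * s.d)) *
      (1 + ‖z - a * (M : ℂ) ^ 3‖) ^ (3 * s.d + 2 * (3 * s.d * s.d)) := by
  set N : ℝ := (M : ℝ) ^ 3 with hN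
  have hM' : (1 : ℝ) ≤ M := by exact_mod_cast hM
  have hN1 : 1 ≤ N := one_le_pow₀ hM'
  set b := z - a * (M : ℂ) ^ 3 with hb
  have hz : z = b + a * (M : ℂ) ^ 3 := by rw [hb]; ring
  have hnat : (((a.natAbs : ℕ)) : ℝ) = |(a : ℝ)| := by
    rw [Nat.cast_natAbs]; simp
  have hzn : ‖z‖ ≤ ‖b‖ + a.natAbs * N := by
    rw [hz]
    refine (norm_add_le _ _).trans ?_
    rw [norm_mul, norm_pow, Complex.norm_intCast, Complex.norm_natCast, hnat]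
  have hb0 := norm_nonneg b
  have ha0 : (0 : ℝ) ≤ a.natAbs := by positivity
  set A : ℝ := (a.natAbs : ℝ) with hA
  have hz0 := norm_nonneg z
  have e1 : 1 + ‖z‖ ≤ (1 + ‖b‖) * (1 + A) * N := by
    nlinarith [mul_nonneg hb0 ha0, mul_nonneg hb0 (by linarith : (0 : ℝ) ≤ N - 1),
      mul_nonneg (mul_nonneg hb0 ha0) (by linarith : (0 : ℝ) ≤ N)]
  have e2 : 1 + (‖z‖ / N) ^ 2 ≤ ((1 + ‖b‖) * (1 + A)) ^ 2 := by
    have h1 : ‖z‖ / N ≤ ‖b‖ + A := by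
      rw [div_le_iff₀ (by linarith)]
      nlinarith
    have h0 : 0 ≤ ‖z‖ / N := by positivity
    nlinarith [mul_nonneg hb0 ha0]
  have e3 := newH_near s.d M hM a ha had z
  rw [← hN, ← hb] at e3
  rw [norm_mul]
  have hd2 : (0 : ℝ) < N := by linarith
  calc ‖s.f z‖ * ‖newH s.d M z‖
      ≤ (1 + ‖z‖) ^ s.d * ((2 * (1 + ‖b‖) ^ 2 / N) ^ s.d *
        (1 + (‖z‖ / N) ^ 2) ^ (3 * s.d * s.d)) :=
        mul_le_mul (s.f_poly z) e3 (norm_nonneg _) (by positivity)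
    _ ≤ ((1 + ‖b‖) * (1 + A) * N) ^ s.d * ((2 * (1 + ‖b‖) ^ 2 / N) ^ s.d *
        (((1 + ‖b‖) * (1 + A)) ^ 2) ^ (3 * s.d * s.d)) := by
        apply mul_le_mul
        · exact pow_le_pow_left₀ (by positivity) e1 _
        · apply mul_le_mul_of_nonneg_left _ (by positivity)
          exact pow_le_pow_left₀ (by positivity) e2 _
        · positivity
        · positivity
    _ = (((1 + ‖b‖) * (1 + A) * N) * (2 * (1 + ‖b‖) ^ 2 / N)) ^ s.d *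
        (((1 + ‖b‖) * (1 + A)) ^ 2) ^ (3 * s.d * s.d) := by
        rw [mul_pow _ (2 * (1 + ‖b‖) ^ 2 / N)]; ring
    _ = (2 * (1 + A) * (1 + ‖b‖) ^ 3) ^ s.d *
        (((1 + ‖b‖) * (1 + A)) ^ 2) ^ (3 * s.d * s.d) := by
        congr 2
        field_simp
    _ = _ := by
        rw [mul_pow, mul_pow, ← pow_mul, ← pow_mul, mul_pow, pow_add, pow_add]
        ring

lemma prod_far (s : Stage) (M : ℕ) (hM : 1 ≤ M) (a : ℤ) (z : ℂ) :
    ‖s.f z * newH s.d M z‖ ≤ (1 + (a.natAbs : ℝ)) ^ (s.d + 2 * (3 * s.d * s.d)) *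
      (1 + ‖z - a * (M : ℂ) ^ 3‖) ^ (s.d + 2 * (3 * s.d * s.d)) * (M : ℝ) ^ (3 * s.d) := by
  set N : ℝ := (M : ℝ) ^ 3 with hN
  have hM' : (1 : ℝ) ≤ M := by exact_mod_cast hM
  have hN1 : 1 ≤ N := one_le_pow₀ hM'
  set b := z - a * (M : ℂ) ^ 3 with hb
  have hz : z = b + a * (M : ℂ) ^ 3 := by rw [hb]; ring
  have hnat : (((a.natAbs : ℕ)) : ℝ) = |(a : ℝ)| := by
    rw [Nat.cast_natAbs]; simp
  have hzn : ‖z‖ ≤ ‖b‖ + a.natAbs * N := by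
    rw [hz]
    refine (norm_add_le _ _).trans ?_
    rw [norm_mul, norm_pow, Complex.norm_intCast, Complex.norm_natCast, hnat]
  have hb0 := norm_nonneg b
  have ha0 : (0 : ℝ) ≤ a.natAbs := by positivity
  set A : ℝ := (a.natAbs : ℝ) with hA
  have hz0 := norm_nonneg z
  have e1 : 1 + ‖z‖ ≤ (1 + ‖b‖) * (1 + A) * N := by
    nlinarith [mul_nonneg hb0 ha0, mul_nonneg hb0 (by linarith : (0 : ℝ) ≤ N - 1),
      mul_nonneg (mul_nonneg hb0 ha0) (by linarith : (0 : ℝ) ≤ N)]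
  have e2 : 1 + (‖z‖ / N) ^ 2 ≤ ((1 + ‖b‖) * (1 + A)) ^ 2 := by
    have h1 : ‖z‖ / N ≤ ‖b‖ + A := by
      rw [div_le_iff₀ (by linarith)]
      nlinarith
    have h0 : 0 ≤ ‖z‖ / N := by positivity
    nlinarith [mul_nonneg hb0 ha0]
  have e3 := newH_le s.d M hM z
  rw [← hN] at e3
  rw [norm_mul]
  calc ‖s.f z‖ * ‖newH s.d M z‖
      ≤ (1 + ‖z‖) ^ s.d * (1 + (‖z‖ / N) ^ 2) ^ (3 * s.d * s.d) :=
        mul_le_mul (s.f_poly z) e3 (norm_nonneg _) (by positivity)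
    _ ≤ ((1 + ‖b‖) * (1 + A) * N) ^ s.d * (((1 + ‖b‖) * (1 + A)) ^ 2) ^ (3 * s.d * s.d) := by
        apply mul_le_mul
        · exact pow_le_pow_left₀ (by positivity) e1 _
        · exact pow_le_pow_left₀ (by positivity) e2 _
        · positivity
        · positivity
    _ = _ := by
        rw [hN, mul_pow, mul_pow, ← pow_mul, ← pow_mul, mul_pow, pow_add, pow_add]
        ring

lemma prod_poly (s : Stage) (M : ℕ) (hM : 1 ≤ M) (z : ℂ) :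
    ‖s.f z * newH s.d M z‖ ≤ (1 + ‖z‖) ^ (s.d + 2 * (3 * s.d * s.d)) := by
  have hM' : (1 : ℝ) ≤ M := by exact_mod_cast hM
  have hN1 : 1 ≤ (M : ℝ) ^ 3 := one_le_pow₀ hM'
  have hz0 := norm_nonneg z
  have e2 : 1 + (‖z‖ / (M : ℝ) ^ 3) ^ 2 ≤ (1 + ‖z‖) ^ 2 := by
    have h1 : ‖z‖ / (M : ℝ) ^ 3 ≤ ‖z‖ := div_le_self hz0 hN1
    have h0 : 0 ≤ ‖z‖ / (M : ℝ) ^ 3 := by positivity
    nlinarith
  rw [norm_mul]
  calc ‖s.f z‖ * ‖newH s.d M z‖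
      ≤ (1 + ‖z‖) ^ s.d * (1 + (‖z‖ / (M : ℝ) ^ 3) ^ 2) ^ (3 * s.d * s.d) :=
        mul_le_mul (s.f_poly z) (newH_le s.d M hM z) (norm_nonneg _) (by positivity)
    _ ≤ (1 + ‖z‖) ^ s.d * ((1 + ‖z‖) ^ 2) ^ (3 * s.d * s.d) := by
        apply mul_le_mul_of_nonneg_left _ (by positivity)
        exact pow_le_pow_left₀ (by positivity) e2 _
    _ = _ := by rw [← pow_mul, ← pow_add]

/-- the value of the new factor at `1` tends to `1`. -/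
lemma newH_one_tendsto (d : ℕ) : Tendsto (fun M : ℕ => newH d M 1) atTop (𝓝 1) := by
  unfold newH
  have hlim : Tendsto (fun M : ℕ => ∏ a ∈ Finset.range (3 * d),
      (1 - (1 : ℂ) ^ 2 / ((((a + 1 : ℕ) : ℂ)) * (M : ℂ) ^ 3) ^ 2) ^ d) atTop
      (𝓝 (∏ a ∈ Finset.range (3 * d), (1 - 0) ^ d)) := by
    apply tendsto_finsetProd
    intro a _
    apply Tendsto.pow
    apply Tendsto.sub tendsto_const_nhds
    have h1 : Tendsto (fun M : ℕ => ((M : ℂ))⁻¹) atTop (𝓝 0) :=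
      tendsto_inv_atTop_nhds_zero_nat (𝕜 := ℂ)
    have h2 : Tendsto (fun M : ℕ => (((M : ℂ))⁻¹) ^ 6 * ((((a + 1 : ℕ) : ℂ)) ^ 2)⁻¹) atTop
        (𝓝 (0 ^ 6 * ((((a + 1 : ℕ) : ℂ)) ^ 2)⁻¹)) := (h1.pow 6).mul_const _
    simp only [ne_eq, OfNat.ofNat_ne_zero, not_false_eq_true, zero_pow, zero_mul] at h2
    refine h2.congr ?_
    intro M
    rw [one_pow, one_div, mul_pow, mul_inv, ← pow_mul, inv_pow]
    ring
  simpa using hlim

end Pool.Agent.Helper287.HP
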