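import Pool.Agent.Helper287.HP.Compl
import Pool.Agent.Helper287.HP.Quasi

set_option autoImplicit false

/-! The weighted `ℓ¹` norm and the limit seminorm. -/

namespace Pool.Agent.Helper287.HP

open Filter Topology

lemma wl1_eq_of_subset (Ω : ℤ → ℝ) (P : GA) (t : Finset ℤ) (h : P.coeff.support ⊆ t) :
    wl1 Ω P = ∑ n ∈ t, ‖P.coeff n‖ * Ω n := by
  unfold wl1
  apply Finset.sum_subset h
  intro n _ hn
  rw [Finsupp.notMem_support_iff] at hn
  rw [hn]; simp

lemma wl1_zero (Ω : ℤ → ℝ) : wl1 Ω 0 = 0 := by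
  unfold wl1; simp

lemma wl1_nonneg {Ω : ℤ → ℝ} (h0 : ∀ n, 0 ≤ Ω n) (P : GA) : 0 ≤ wl1 Ω P :=
  Finset.sum_nonneg fun n _ => mul_nonneg (norm_nonneg _) (h0 n)

lemma wl1_add {Ω : ℤ → ℝ} (h0 : ∀ n, 0 ≤ Ω n) (P Q : GA) : wl1 Ω (P + Q) ≤ wl1 Ω P + wl1 Ω Q := by
  classical
  rw [wl1_eq_of_subset Ω (P + Q) (P.coeff.support ∪ Q.coeff.support)
      (by rw [AddMonoidAlgebra.coeff_add]; exact Finsupp.support_add),
    wl1_eq_of_subset Ω P _ Finset.subset_union_left,
    wl1_eq_of_subset Ω Q _ Finset.subset_union_right, ← Finset.sum_add_distrib]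
  apply Finset.sum_le_sum
  intro n _
  rw [AddMonoidAlgebra.coeff_add, Finsupp.add_apply, ← add_mul]
  exact mul_le_mul_of_nonneg_right (norm_add_le _ _) (h0 n)

lemma wl1_smul {Ω : ℤ → ℝ} (c : ℂ) (P : GA) : wl1 Ω (c • P) = ‖c‖ * wl1 Ω P := by
  rw [wl1_eq_of_subset Ω (c • P) P.coeff.support
      (by rw [AddMonoidAlgebra.coeff_smul]; exact Finsupp.support_smul), wl1, Finset.mul_sum]
  apply Finset.sum_congr rfl
  intro n _
  rw [AddMonoidAlgebra.coeff_smul, Finsupp.smul_apply, smul_eq_mul, norm_mul]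
  ring

lemma wl1_single {Ω : ℤ → ℝ} (n : ℤ) (c : ℂ) :
    wl1 Ω (AddMonoidAlgebra.single n c) = ‖c‖ * Ω n := by
  rw [wl1_eq_of_subset Ω (AddMonoidAlgebra.single n c) {n}
    (by rw [AddMonoidAlgebra.coeff_single]; exact Finsupp.support_single_subset)]
  rw [Finset.sum_singleton, AddMonoidAlgebra.coeff_single, Finsupp.single_eq_same]

lemma wl1_sum {Ω : ℤ → ℝ} (h0 : ∀ n, 0 ≤ Ω n) {ι : Type} (t : Finset ι) (g : ι → GA) :
    wl1 Ω (∑ i ∈ t, g i) ≤ ∑ i ∈ t, wl1 Ω (g i) := by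
  classical
  induction t using Finset.induction_on with
  | empty => simp [wl1_zero]
  | insert a t ha ih =>
    rw [Finset.sum_insert ha, Finset.sum_insert ha]
    exact (wl1_add h0 _ _).trans (by linarith)

lemma eq_sum_single (P : GA) : P = ∑ n ∈ P.coeff.support, AddMonoidAlgebra.single n (P.coeff n) := by
  conv_lhs => rw [← AddMonoidAlgebra.sum_coeff_single P]
  rfl

lemma wl1_mul {Ω : ℤ → ℝ} (h0 : ∀ n, 0 ≤ Ω n) (hs : ∀ m n, Ω (m + n) ≤ Ω m * Ω n) (P Q : GA) :
    wl1 Ω (P * Q) ≤ wl1 Ω P * wl1 Ω Q := by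
  classical
  have e : P * Q = ∑ m ∈ P.coeff.support, ∑ n ∈ Q.coeff.support,
      AddMonoidAlgebra.single (m + n) (P.coeff m * Q.coeff n) := by
    conv_lhs => rw [eq_sum_single P, eq_sum_single Q]
    rw [Finset.sum_mul_sum]
    simp only [AddMonoidAlgebra.single_mul_single]
  rw [e]
  refine (wl1_sum h0 _ _).trans ?_
  unfold wl1
  rw [Finset.sum_mul_sum]
  apply Finset.sum_le_sum
  intro m _
  refine (wl1_sum h0 _ _).trans ?_
  apply Finset.sum_le_sum
  intro n _
  rw [wl1_single, norm_mul]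
  calc ‖P.coeff m‖ * ‖Q.coeff n‖ * Ω (m + n) ≤ ‖P.coeff m‖ * ‖Q.coeff n‖ * (Ω m * Ω n) :=
        mul_le_mul_of_nonneg_left (hs m n) (by positivity)
    _ = _ := by ring

/-- The weighted `ℓ¹` seminorm as an algebra seminorm. -/
noncomputable def wlAlg (Ω : ℤ → ℝ) (h0 : ∀ n, 0 ≤ Ω n) (hs : ∀ m n, Ω (m + n) ≤ Ω m * Ω n) :
    AlgSemi where
  q := wl1 Ω
  zero := wl1_zero Ω
  add := wl1_add h0
  smul c P := (wl1_smul c P).le
  mul := wl1_mul h0 hs

/-- any algebra seminorm is below the weighted `ℓ¹` seminorm of its values on monomials. -/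
lemma AlgSemi.le_wl1 (s : AlgSemi) (P : GA) :
    s.q P ≤ wl1 (fun n => s.q (AddMonoidAlgebra.single n 1)) P := by
  classical
  have hsum : ∀ (t : Finset ℤ) (g : ℤ → GA), s.q (∑ i ∈ t, g i) ≤ ∑ i ∈ t, s.q (g i) := by
    intro t g
    induction t using Finset.induction_on with
    | empty => simp [s.zero]
    | insert a t ha ih =>
      rw [Finset.sum_insert ha, Finset.sum_insert ha]
      exact (s.add _ _).trans (by linarith)
  conv_lhs => rw [eq_sum_single P]
  refine (hsum _ _).trans ?_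
  unfold wl1
  apply Finset.sum_le_sum
  intro n _
  have : (AddMonoidAlgebra.single n (P.coeff n) : GA) =
      (P.coeff n) • AddMonoidAlgebra.single n (1 : ℂ) := by
    rw [AddMonoidAlgebra.smul_single, smul_eq_mul, mul_one]
  rw [this]
  exact s.smul _ _

section limit

variable (S : ℕ → Stage) (hS : ∀ k z, (S (k + 1)).W z ≤ (S k).W z)

/-- The limit seminorm. -/
noncomputable def qB (P : GA) : ℝ := ⨅ k, pS (S k) P

lemma qB_bdd (P : GA) : BddBelow (Set.range fun k => pS (S k) P) :=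
  ⟨0, by rintro _ ⟨k, rfl⟩; exact pS_nonneg _ _⟩

lemma qB_le (P : GA) (k : ℕ) : qB S P ≤ pS (S k) P := ciInf_le (qB_bdd S P) k

lemma le_qB {P : GA} {c : ℝ} (h : ∀ k, c ≤ pS (S k) P) : c ≤ qB S P := le_ciInf h

include hS in
lemma qB_tendsto (P : GA) : Tendsto (fun k => pS (S k) P) atTop (𝓝 (qB S P)) := by
  apply tendsto_atTop_ciInf _ (qB_bdd S P)
  exact antitone_nat_of_succ_le fun k => pS_anti (hS k) P

/-- The limit seminorm is an algebra seminorm. -/
noncomputable def qBAlg : AlgSemi where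
  q := qB S
  zero := by
    apply le_antisymm
    · exact (qB_le S 0 0).trans (pS_zero _).le
    · exact le_qB S fun k => (pS_zero _).ge
  add P Q := by
    apply le_of_tendsto_of_tendsto' (qB_tendsto S hS (P + Q))
      ((qB_tendsto S hS P).add (qB_tendsto S hS Q))
    exact fun k => pS_add _ _ _
  smul c P := by
    apply le_of_tendsto_of_tendsto' (qB_tendsto S hS (c • P)) ((qB_tendsto S hS P).const_mul ‖c‖)
    exact fun k => pS_smul_le _ _ _
  mul P Q := by
    apply le_of_tendsto_of_tendsto' (qB_tendsto S hS (P * Q))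
      ((qB_tendsto S hS P).mul (qB_tendsto S hS Q))
    exact fun k => pS_mul _ _ _

end limit

end Pool.Agent.Helper287.HP
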